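import Pool.Agent.TH535.SM.A5

set_option autoImplicit false

/-! The entire function `((1 - e^{-s(1-s)}) ζ(s) ζ(1-s))^k`. -/

namespace Pool.Agent.J4.H63.SA

open Complex MeasureTheory Filter Topology Set Pool.Agent.TH535.SM

noncomputable section

/-- `(1 - e^{-w}) / w` -/
def ph : ℂ → ℂ := dslope (fun w : ℂ => -cexp (-w)) 0

lemma ph_mul (w : ℂ) : ph w * w = 1 - cexp (-w) := by
  have h := sub_smul_dslope (fun w : ℂ => -cexp (-w)) 0 w
  simp only [sub_zero, smul_eq_mul, neg_zero, Complex.exp_zero] at h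
  unfold ph
  rw [mul_comm, h]
  ring

lemma ph_diff : Differentiable ℂ ph := by
  have h : DifferentiableOn ℂ (fun w : ℂ => -cexp (-w)) univ := by
    intro w _
    exact (by fun_prop : DifferentiableAt ℂ (fun w : ℂ => -cexp (-w)) w).differentiableWithinAt
  have h2 := (Complex.differentiableOn_dslope (c := 0) (s := univ) univ_mem).2 h
  exact differentiableOn_univ.1 h2

lemma ph_bd {R : ℝ} (hR : 0 ≤ R) : ∃ C : ℝ, 1 ≤ C ∧ ∀ w : ℂ, -R ≤ w.re → ‖ph w‖ ≤ C ∧ ‖ph w‖ * ‖w‖ ≤ C := by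
  obtain ⟨K, hK⟩ := (isCompact_closedBall (0:ℂ) 1).exists_bound_of_continuousOn
    ph_diff.continuous.continuousOn
  have h2 : ∀ w : ℂ, -R ≤ w.re → ‖ph w‖ * ‖w‖ ≤ 1 + Real.exp R := by
    intro w hw
    rw [← norm_mul, ph_mul]
    refine (norm_sub_le _ _).trans ?_
    rw [norm_one, Complex.norm_exp, neg_re]
    have := Real.exp_le_exp.2 (by linarith : -w.re ≤ R)
    linarith
  have he := Real.exp_pos R
  refine ⟨max (1 + Real.exp R) K, le_max_of_le_left (by linarith), fun w hw => ⟨?_, ?_⟩⟩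
  · rcases le_total ‖w‖ 1 with h | h
    · exact (hK w (by simpa using h)).trans (le_max_right _ _)
    · refine le_trans ?_ (le_max_left _ _)
      have := h2 w hw
      nlinarith [norm_nonneg (ph w)]
  · exact (h2 w hw).trans (le_max_left _ _)

/-- `(1 - e^{-s(1-s)}) ζ(s) ζ(1-s)` -/
def Ph (s : ℂ) : ℂ := ph (s * (1 - s)) * (Y s * Y (1 - s))

lemma Ph_diff : Differentiable ℂ Ph := by
  unfold Ph
  have h1 : Differentiable ℂ (fun s : ℂ => s * (1 - s)) := by fun_prop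
  have h2 : Differentiable ℂ (fun s : ℂ => 1 - s) := by fun_prop
  exact (ph_diff.comp h1).mul (Y_diff.mul (Y_diff.comp h2))

/-- the factor on the critical line -/
def q (t : ℝ) : ℝ := 1 - Real.exp (-(1 / 4 + t ^ 2))

lemma q_nonneg (t : ℝ) : 0 ≤ q t := by
  unfold q
  have := Real.exp_le_one_iff.2 (by nlinarith [sq_nonneg t] : -(1 / 4 + t ^ 2) ≤ 0)
  linarith

lemma q_le_one (t : ℝ) : q t ≤ 1 := by
  unfold q
  have := Real.exp_pos (-(1 / 4 + t ^ 2))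
  linarith

lemma Ph_line (t : ℝ) : Ph (1 / 2 + t * I) = ((q t * ‖riemannZeta (1 / 2 + t * I)‖ ^ 2 : ℝ) : ℂ) := by
  obtain ⟨s, hs⟩ : ∃ s : ℂ, s = 1 / 2 + t * I := ⟨_, rfl⟩
  rw [← hs]
  have hre : s.re = 1 / 2 := by rw [hs]; simp
  have hs1 : s ≠ 1 := by
    intro h
    have := congrArg Complex.re h
    rw [hre, one_re] at this
    norm_num at this
  have hs0 : 1 - s ≠ 1 := by
    intro h
    have := congrArg Complex.re h
    rw [sub_re, hre, one_re] at this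
    norm_num at this
  have e1 : (starRingEnd ℂ) s = 1 - s := by
    rw [hs, map_add, map_mul, conj_I, Complex.conj_ofReal, map_div₀, map_one, map_ofNat]
    ring
  have e2 : riemannZeta (1 - s) = (starRingEnd ℂ) (riemannZeta s) := by
    rw [← e1, riemannZeta_conj]
  have e3 : s * (1 - s) = ((1 / 4 + t ^ 2 : ℝ) : ℂ) := by
    rw [hs]
    push_cast
    have : (1 / 2 + (t : ℂ) * I) * (1 - (1 / 2 + t * I)) = 1 / 4 - t ^ 2 * I ^ 2 := by ring
    rw [this, I_sq]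
    ring
  have e4 : Y s * Y (1 - s) = (s * (1 - s)) * (riemannZeta s * (starRingEnd ℂ) (riemannZeta s)) := by
    rw [Y_eq hs1, Y_eq hs0, e2]
    ring
  unfold Ph
  rw [e4, ← mul_assoc, ph_mul, Complex.mul_conj, Complex.normSq_eq_norm_sq, e3]
  unfold q
  push_cast
  rfl

lemma re_mul (s : ℂ) : (s * (1 - s)).re = 1 / 4 - (s.re - 1 / 2) ^ 2 + s.im ^ 2 := by
  simp only [mul_re, sub_re, one_re, sub_im, one_im]
  ring

lemma Y_strip {u : ℕ} (hu : 1 ≤ u) : ∃ (C : ℝ) (M : ℕ), 1 ≤ C ∧ ∀ s : ℂ,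
    1 / 2 - (u : ℝ) ≤ s.re → s.re ≤ 1 / 2 + u → ‖Y s‖ ≤ C * (1 + |s.im|) ^ M := by
  obtain ⟨C, M, hC, hb⟩ := H_strip 1 hu
  have hu1 : (1:ℝ) ≤ u := by exact_mod_cast hu
  refine ⟨C * (3 * u + 2), M + 1, by nlinarith, fun s h1 h2 => ?_⟩
  have hd : s + (2 * u + 1 : ℕ) ≠ 0 := den_ne (by linarith)
  have e : Y s = H 1 u s * (s + (2 * u + 1 : ℕ)) := by
    unfold H
    rw [pow_one, div_mul_cancel₀ _ hd]
  have h3 : ‖s + (2 * u + 1 : ℕ)‖ ≤ (3 * u + 2) * (1 + |s.im|) := by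
    have := Complex.norm_le_abs_re_add_abs_im (s + (2 * u + 1 : ℕ))
    rw [den_re, den_im, abs_of_nonneg (by linarith : 0 ≤ s.re + (2 * u + 1))] at this
    nlinarith [abs_nonneg s.im]
  rw [e, norm_mul]
  calc ‖H 1 u s‖ * ‖s + (2 * u + 1 : ℕ)‖ ≤ (C * (1 + |s.im|) ^ M) * ((3 * u + 2) * (1 + |s.im|)) := by
        have := hb s h1 h2
        gcongr
    _ = _ := by ring

lemma Y_lines {u : ℕ} (hu : 1 ≤ u) : ∃ C : ℝ, 1 ≤ C ∧ ∀ t : ℝ,
    ‖Y (((1 / 2 + u : ℝ) : ℂ) + t * I)‖ ≤ C * (1 + |t|) ∧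
    ‖Y (((1 / 2 - u : ℝ) : ℂ) + t * I)‖ ≤ C * (1 + |t|) ^ (u + 1) := by
  obtain ⟨C1, hC1, hb1⟩ := H_right 1 hu
  obtain ⟨C2, hC2, hb2⟩ := H_left 1 hu
  have hu1 : (1:ℝ) ≤ u := by exact_mod_cast hu
  refine ⟨(C1 + C2) * (3 * u + 2), by nlinarith, fun t => ?_⟩
  have key : ∀ s : ℂ, 1 / 2 - (u : ℝ) ≤ s.re → s.re ≤ 1 / 2 + u →
      ‖Y s‖ ≤ ‖H 1 u s‖ * ((3 * u + 2) * (1 + |s.im|)) := by
    intro s h1 h2
    have hd : s + (2 * u + 1 : ℕ) ≠ 0 := den_ne (by linarith)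
    have e : Y s = H 1 u s * (s + (2 * u + 1 : ℕ)) := by
      unfold H
      rw [pow_one, div_mul_cancel₀ _ hd]
    have h3 : ‖s + (2 * u + 1 : ℕ)‖ ≤ (3 * u + 2) * (1 + |s.im|) := by
      have := Complex.norm_le_abs_re_add_abs_im (s + (2 * u + 1 : ℕ))
      rw [den_re, den_im, abs_of_nonneg (by linarith : 0 ≤ s.re + (2 * u + 1))] at this
      nlinarith [abs_nonneg s.im]
    rw [e, norm_mul]
    gcongr
  have hre1 : (((1 / 2 + u : ℝ) : ℂ) + t * I).re = 1 / 2 + u := by simp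
  have him1 : (((1 / 2 + u : ℝ) : ℂ) + t * I).im = t := by simp
  have hre2 : (((1 / 2 - u : ℝ) : ℂ) + t * I).re = 1 / 2 - u := by simp
  have him2 : (((1 / 2 - u : ℝ) : ℂ) + t * I).im = t := by simp
  have ht := abs_nonneg t
  constructor
  · have h1 := key (((1 / 2 + u : ℝ) : ℂ) + t * I) (by rw [hre1]; linarith) (by rw [hre1])
    rw [him1] at h1
    have h2 := hb1 t
    calc _ ≤ _ := h1
      _ ≤ (C1 + C2) * ((3 * u + 2) * (1 + |t|)) := by gcongr; linarith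
      _ = _ := by ring
  · have h1 := key (((1 / 2 - u : ℝ) : ℂ) + t * I) (by rw [hre2]) (by rw [hre2]; linarith)
    rw [him2] at h1
    have h2 := hb2 t
    rw [mul_one] at h2
    calc _ ≤ _ := h1
      _ ≤ ((C1 + C2) * (1 + |t|) ^ u) * ((3 * u + 2) * (1 + |t|)) := by
          gcongr
          refine h2.trans ?_
          gcongr
          linarith
      _ = _ := by ring

lemma Ph_strip {u : ℕ} (hu : 1 ≤ u) : ∃ (C : ℝ) (M : ℕ), 1 ≤ C ∧ ∀ s : ℂ,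
    1 / 2 - (u : ℝ) ≤ s.re → s.re ≤ 1 / 2 + u → ‖Ph s‖ ≤ C * (1 + |s.im|) ^ M := by
  obtain ⟨C, M, hC, hb⟩ := Y_strip hu
  obtain ⟨D, hD, hd⟩ := ph_bd (R := (u:ℝ) ^ 2) (by positivity)
  refine ⟨D * (C * C), M + M, by nlinarith [mul_le_mul hC hC (by norm_num) (by linarith)], fun s h1 h2 => ?_⟩
  have hw : -(u:ℝ) ^ 2 ≤ (s * (1 - s)).re := by
    rw [re_mul]
    have : (s.re - 1 / 2) ^ 2 ≤ (u:ℝ) ^ 2 := by
      rw [← sq_abs (s.re - 1 / 2)]
      have : |s.re - 1 / 2| ≤ u := abs_le.2 ⟨by linarith, by linarith⟩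
      gcongr
    nlinarith [sq_nonneg s.im]
  have h3 := (hd _ hw).1
  have h4 := hb s h1 h2
  have h5 := hb (1 - s) (by rw [sub_re, one_re]; linarith) (by rw [sub_re, one_re]; linarith)
  have e : (1 - s).im = -s.im := by simp
  rw [e, abs_neg] at h5
  unfold Ph
  rw [norm_mul, norm_mul]
  calc _ ≤ D * ((C * (1 + |s.im|) ^ M) * (C * (1 + |s.im|) ^ M)) := by gcongr
    _ = _ := by rw [pow_add]; ring

lemma Ph_lines {u : ℕ} (hu : 1 ≤ u) : ∃ C : ℝ, 1 ≤ C ∧ ∀ t : ℝ,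
    ‖Ph (((1 / 2 + u : ℝ) : ℂ) + t * I)‖ ≤ C * (1 + |t|) ^ u ∧
    ‖Ph (((1 / 2 - u : ℝ) : ℂ) + t * I)‖ ≤ C * (1 + |t|) ^ u := by
  obtain ⟨C, hC, hb⟩ := Y_lines hu
  obtain ⟨D, hD, hd⟩ := ph_bd (R := (u:ℝ) ^ 2) (by positivity)
  have hu1 : (1:ℝ) ≤ u := by exact_mod_cast hu
  have hsym : ∀ s : ℂ, Ph (1 - s) = Ph s := by
    intro s
    unfold Ph
    have : (1 - s) * (1 - (1 - s)) = s * (1 - s) := by ring
    rw [this, sub_sub_cancel]
    ring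
  have key : ∀ t : ℝ, ‖Ph (((1 / 2 + u : ℝ) : ℂ) + t * I)‖ ≤ (6 * D * (C * C)) * (1 + |t|) ^ u := by
    intro t
    obtain ⟨s, hs⟩ : ∃ s : ℂ, s = ((1 / 2 + u : ℝ) : ℂ) + t * I := ⟨_, rfl⟩
    have hre : s.re = 1 / 2 + u := by rw [hs]; simp
    have him : s.im = t := by rw [hs]; simp
    have e1 : 1 - s = ((1 / 2 - u : ℝ) : ℂ) + (-t : ℝ) * I := by
      rw [hs]; push_cast; ring
    have h1 := (hb t).1
    have h2 := (hb (-t)).2
    rw [abs_neg, ← e1] at h2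
    rw [← hs] at h1 ⊢
    have hw : -(u:ℝ) ^ 2 ≤ (s * (1 - s)).re := by
      rw [re_mul, hre]
      nlinarith [sq_nonneg s.im]
    have h3 := (hd _ hw).2
    have ht := abs_nonneg t
    have n1 : (1 + |t|) / 2 ≤ ‖s‖ := by
      have a1 := Complex.abs_im_le_norm s
      have a2 := Complex.abs_re_le_norm s
      rw [him] at a1
      rw [hre, abs_of_nonneg (by linarith)] at a2
      linarith
    have n2 : (1 + |t|) / 3 ≤ ‖1 - s‖ := by
      have a1 := Complex.abs_im_le_norm (1 - s)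
      have a2 := Complex.abs_re_le_norm (1 - s)
      rw [sub_im, one_im, him, zero_sub, abs_neg] at a1
      rw [sub_re, one_re, hre, abs_of_nonpos (by linarith)] at a2
      linarith
    have n3 : (1 + |t|) ^ 2 / 6 ≤ ‖s * (1 - s)‖ := by
      rw [norm_mul]
      calc (1 + |t|) ^ 2 / 6 = ((1 + |t|) / 2) * ((1 + |t|) / 3) := by ring
        _ ≤ _ := by gcongr
    have n4 : ‖ph (s * (1 - s))‖ * (1 + |t|) ^ 2 ≤ 6 * D := by
      have := mul_le_mul_of_nonneg_left n3 (norm_nonneg (ph (s * (1 - s))))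
      linarith
    unfold Ph
    rw [norm_mul, norm_mul]
    calc _ ≤ ‖ph (s * (1 - s))‖ * ((C * (1 + |t|)) * (C * (1 + |t|) ^ (u + 1))) := by gcongr
      _ = (‖ph (s * (1 - s))‖ * (1 + |t|) ^ 2) * ((C * C) * (1 + |t|) ^ u) := by ring
      _ ≤ (6 * D) * ((C * C) * (1 + |t|) ^ u) := by gcongr
      _ = _ := by ring
  refine ⟨6 * D * (C * C), by nlinarith [mul_le_mul hC hC (by norm_num) (by linarith)], fun t => ⟨key t, ?_⟩⟩
  have e1 : ((1 / 2 - u : ℝ) : ℂ) + t * I = 1 - (((1 / 2 + u : ℝ) : ℂ) + (-t : ℝ) * I) := by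
    push_cast; ring
  rw [e1, hsym]
  have := key (-t)
  rwa [abs_neg] at this

/-- the function `Ph ^ k` in the strip -/
lemma f_PG (k : ℕ) {u : ℕ} (hu : 1 ≤ u) : PG (fun s => Ph s ^ k) u := by
  obtain ⟨C, M, hC, hb⟩ := Ph_strip hu
  refine ⟨fun s _ _ => (Ph_diff s).pow k, C ^ k, M * k, by positivity, fun s h1 h2 => ?_⟩
  rw [norm_pow, pow_mul, ← mul_pow]
  have := hb s h1 h2
  gcongr

lemma f_lines (k : ℕ) {u : ℕ} (hu : 1 ≤ u) : ∃ C : ℝ, 1 ≤ C ∧ ∀ t : ℝ,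
    ‖Ph (((1 / 2 + u : ℝ) : ℂ) + t * I) ^ k‖ ≤ C * (1 + |t|) ^ (u * k) ∧
    ‖Ph (((1 / 2 - u : ℝ) : ℂ) + t * I) ^ k‖ ≤ C * (1 + |t|) ^ (u * k) := by
  obtain ⟨C, hC, hb⟩ := Ph_lines hu
  refine ⟨C ^ k, one_le_pow₀ hC, fun t => ⟨?_, ?_⟩⟩
  · rw [norm_pow, pow_mul, ← mul_pow]
    have := (hb t).1
    gcongr
  · rw [norm_pow, pow_mul, ← mul_pow]
    have := (hb t).2
    gcongr

/-- the values on the critical line -/
def P (k : ℕ) (t : ℝ) : ℝ := (q t * ‖riemannZeta (1 / 2 + t * I)‖ ^ 2) ^ k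

lemma P_line (k : ℕ) (t : ℝ) : Ph (1 / 2 + t * I) ^ k = (P k t : ℂ) := by
  rw [Ph_line, P]
  push_cast
  rfl

lemma P_nonneg (k : ℕ) (t : ℝ) : 0 ≤ P k t := by
  have := q_nonneg t
  unfold P; positivity

end

end Pool.Agent.J4.H63.SA
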