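import Pool.Agent.J4.H63.SA.S1

set_option autoImplicit false

/-! Poisson summation for `v_T P`. -/

namespace Pool.Agent.J4.H63.SA

open Complex MeasureTheory Filter Topology Set Pool.Agent.TH535.SM
open scoped FourierTransform

noncomputable section

/-- the weight against polynomials -/
lemma v_pol (p : ℕ) : ∃ C : ℝ, 1 ≤ C ∧ ∀ T : ℝ, 1 ≤ T → ∀ α t : ℝ,
    v T t * (1 + |t + α|) ^ p ≤ C * (1 + T + |α|) ^ p * gm T t := by
  have hf1 : (1:ℝ) ≤ p.factorial := by exact_mod_cast Nat.succ_le_of_lt (Nat.factorial_pos p)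
  have he : (1:ℝ) ≤ Real.exp 3 := Real.one_le_exp (by norm_num)
  have hs : (1:ℝ) ≤ √2 := Real.one_le_sqrt.2 (by norm_num)
  have hK : (1:ℝ) ≤ √2 * (p.factorial * Real.exp 3) :=
    one_le_mul_of_one_le_of_one_le hs (one_le_mul_of_one_le_of_one_le hf1 he)
  refine ⟨√2 * (p.factorial * Real.exp 3), hK, fun T hT α t => ?_⟩
  have hT0 : 0 ≤ T := by linarith
  have hα := abs_nonneg α
  have hind : 0 ≤ (Icc (0:ℝ) T).indicator (fun _ => (1:ℝ)) t :=
    indicator_nonneg (fun _ _ => by norm_num) t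
  have hg0 : 0 < (1 + T + |α|) ^ p := by positivity
  have hG : ∀ d : ℝ, 0 ≤ d → (1 + d) ^ p * Real.exp (-d ^ 2 / 2) ≤
      (p.factorial * Real.exp 3) * Real.exp (-d ^ 2 / 4) := by
    intro d hd
    have h1 := poly_exp8 p hd
    have h2 : Real.exp (-d ^ 2 / 8) ≤ 1 := Real.exp_le_one_iff.2 (by nlinarith [sq_nonneg d])
    have h3 : Real.exp (-d ^ 2 / 2) = Real.exp (-d ^ 2 / 4) * Real.exp (-d ^ 2 / 4) := by
      rw [← Real.exp_add]; congr 1; ring
    rw [h3, ← mul_assoc]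
    refine mul_le_mul_of_nonneg_right (h1.trans ?_) (Real.exp_pos _).le
    exact mul_le_of_le_one_right (by positivity) h2
  have key : ∀ d x : ℝ, 0 ≤ d → v T t ≤ √2 * Real.exp (-d ^ 2 / 2) → 1 + |t + α| ≤ (1 + d) * (1 + T + |α|) →
      v T t * (1 + |t + α|) ^ p ≤ (√2 * (p.factorial * Real.exp 3)) * (1 + T + |α|) ^ p * Real.exp (-d ^ 2 / 4) := by
    intro d _ hd h1 h2
    calc v T t * (1 + |t + α|) ^ p ≤ (√2 * Real.exp (-d ^ 2 / 2)) * ((1 + d) * (1 + T + |α|)) ^ p := by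
          gcongr
      _ = √2 * (1 + T + |α|) ^ p * ((1 + d) ^ p * Real.exp (-d ^ 2 / 2)) := by
          rw [mul_pow]; ring
      _ ≤ √2 * (1 + T + |α|) ^ p * ((p.factorial * Real.exp 3) * Real.exp (-d ^ 2 / 4)) := by
          have := hG d hd
          gcongr
      _ = _ := by ring
  have hC0 : 0 < √2 * (p.factorial * Real.exp 3) := by positivity
  have e1 := Real.exp_pos (-t ^ 2 / 4)
  have e2 := Real.exp_pos (-(t - T) ^ 2 / 4)
  unfold gm
  by_cases ht : t ∈ Icc 0 T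
  · rw [indicator_of_mem ht]
    have h1 : 1 + |t + α| ≤ 1 + T + |α| := by
      have := abs_add_le t α
      rw [abs_of_nonneg ht.1] at this
      linarith [ht.2]
    calc v T t * (1 + |t + α|) ^ p ≤ 1 * (1 + T + |α|) ^ p := by
          have := v_le_one hT0 t
          gcongr
      _ ≤ (√2 * (p.factorial * Real.exp 3)) * (1 + T + |α|) ^ p * 1 := by
          rw [mul_one]; gcongr
      _ ≤ _ := by
          gcongr
          linarith
  · rw [mem_Icc, not_and_or, not_le, not_le] at ht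
    rcases ht with h | h
    · have h1 := key (-t) t (by linarith) (by
        have := v_neg hT0 h.le
        rwa [neg_sq]) (by
        have := abs_add_le t α
        rw [abs_of_nonpos h.le] at this
        nlinarith)
      rw [neg_sq] at h1
      refine h1.trans ?_
      gcongr
      linarith
    · have h1 := key (t - T) t (by linarith) (v_gt hT0 h.le) (by
        have h3 := abs_add_le (t - T) (T + α)
        have h4 := abs_add_le T α
        rw [abs_of_nonneg hT0] at h4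
        rw [abs_of_nonneg (by linarith : 0 ≤ t - T)] at h3
        have e : t - T + (T + α) = t + α := by ring
        rw [e] at h3
        nlinarith [mul_nonneg (by linarith : 0 ≤ t - T) (by linarith : 0 ≤ T + |α|)])
      refine h1.trans ?_
      gcongr
      linarith

lemma PG_shift {G : ℂ → ℂ} {u : ℕ} (h : PG G u) (α : ℝ) : PG (fun s => G (s + α * I)) u := by
  have hre : ∀ s : ℂ, (s + α * I).re = s.re := fun s => by simp
  have him : ∀ s : ℂ, (s + α * I).im = s.im + α := fun s => by simp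
  obtain ⟨C, M, hC, hb⟩ := h.bd
  refine ⟨fun s a b => ?_, C * (1 + |α|) ^ M, M, by positivity, fun s a b => ?_⟩
  · exact DifferentiableAt.comp (f := fun s : ℂ => s + α * I) s
      (h.diff _ (by rw [hre]; exact a) (by rw [hre]; exact b)) (by fun_prop)
  · have h1 := hb (s + α * I) (by rw [hre]; exact a) (by rw [hre]; exact b)
    rw [him] at h1
    have h2 : 1 + |s.im + α| ≤ (1 + |α|) * (1 + |s.im|) := by
      have := abs_add_le s.im α
      nlinarith [mul_nonneg (abs_nonneg s.im) (abs_nonneg α)]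
    calc _ ≤ C * (1 + |s.im + α|) ^ M := h1
      _ ≤ C * ((1 + |α|) * (1 + |s.im|)) ^ M := by gcongr
      _ = _ := by rw [mul_pow]; ring

/-- the smoothed function -/
def Gk (k : ℕ) (α : ℝ) (s : ℂ) : ℂ := Ph (s + α * I) ^ k

lemma Gk_PG (k : ℕ) {u : ℕ} (hu : 1 ≤ u) (α : ℝ) : PG (Gk k α) u := PG_shift (f_PG k hu) α

lemma Gk_line (k : ℕ) (α T t : ℝ) : Fn (Gk k α) T 0 t = ((v T t * P k (t + α) : ℝ) : ℂ) := by
  rw [Fn_zero]
  unfold Gk
  have e : (1 / 2 + (t : ℂ) * I + α * I) = 1 / 2 + ((t + α : ℝ) : ℂ) * I := by push_cast; ring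
  rw [e, P_line]
  push_cast
  rfl

/-- the integrals on the lines `Re s = 1/2 ± u` -/
lemma Fn_L1 (k : ℕ) {u : ℕ} (hu : 1 ≤ u) : ∃ C : ℝ, 1 ≤ C ∧ ∀ T : ℝ, 1 ≤ T → ∀ α : ℝ,
    (∫ t, ‖Fn (Gk k α) T u t‖ ≤ C * (1 + T + |α|) ^ (u * k + 1)) ∧
    (∫ t, ‖Fn (Gk k α) T (-u) t‖ ≤ C * (1 + T + |α|) ^ (u * k + 1)) := by
  obtain ⟨C, hC, hb⟩ := f_lines k hu
  obtain ⟨D, hD, hd⟩ := v_pol (u * k)
  have hu0 : (0:ℝ) ≤ u := Nat.cast_nonneg u
  refine ⟨Real.exp ((u:ℝ) ^ 2) * C * D * 9, ?_, fun T hT α => ?_⟩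
  · have h1 : (1:ℝ) ≤ Real.exp ((u:ℝ) ^ 2) := Real.one_le_exp (by positivity)
    have h2 := one_le_mul_of_one_le_of_one_le (one_le_mul_of_one_le_of_one_le h1 hC) hD
    linarith
  have hα := abs_nonneg α
  have key : ∀ r : ℝ, -(u:ℝ) ≤ r → r ≤ u → r ^ 2 = (u:ℝ) ^ 2 →
      (∀ t : ℝ, ‖Ph (((1 / 2 + r : ℝ) : ℂ) + t * I) ^ k‖ ≤ C * (1 + |t|) ^ (u * k)) →
      ∫ t, ‖Fn (Gk k α) T r t‖ ≤ Real.exp ((u:ℝ) ^ 2) * C * D * 9 * (1 + T + |α|) ^ (u * k + 1) := by
    intro r h1 h2 h3 h4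
    have hle : ∀ t, ‖Fn (Gk k α) T r t‖ ≤ Real.exp ((u:ℝ) ^ 2) * C * D * (1 + T + |α|) ^ (u * k) * gm T t := by
      intro t
      have h5 := Fn_norm (G := Gk k α) hT r t
      have h6 : ‖Gk k α (((1 / 2 + r : ℝ) : ℂ) + t * I)‖ ≤ C * (1 + |t + α|) ^ (u * k) := by
        have := h4 (t + α)
        unfold Gk
        have e : ((1 / 2 + r : ℝ) : ℂ) + t * I + α * I = ((1 / 2 + r : ℝ) : ℂ) + ((t + α : ℝ) : ℂ) * I := by
          push_cast; ring
        rw [e]
        exact this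
      have hv0 := v_nonneg (T := T) (by linarith) t
      have h7 := hd T hT α t
      calc _ ≤ Real.exp (r ^ 2) * v T t * ‖Gk k α (((1 / 2 + r : ℝ) : ℂ) + t * I)‖ := h5
        _ ≤ Real.exp (r ^ 2) * v T t * (C * (1 + |t + α|) ^ (u * k)) := by gcongr
        _ = Real.exp ((u:ℝ) ^ 2) * C * (v T t * (1 + |t + α|) ^ (u * k)) := by rw [h3]; ring
        _ ≤ Real.exp ((u:ℝ) ^ 2) * C * (D * (1 + T + |α|) ^ (u * k) * gm T t) := by gcongr
        _ = _ := by ring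
    calc _ ≤ ∫ t, Real.exp ((u:ℝ) ^ 2) * C * D * (1 + T + |α|) ^ (u * k) * gm T t :=
          integral_mono (Fn_dec (Gk_PG k hu α) hT h1 h2).int.norm ((gm_int T).const_mul _) hle
      _ = Real.exp ((u:ℝ) ^ 2) * C * D * (1 + T + |α|) ^ (u * k) * ∫ t, gm T t := integral_const_mul _ _
      _ ≤ Real.exp ((u:ℝ) ^ 2) * C * D * (1 + T + |α|) ^ (u * k) * (9 * T) := by
          gcongr
          exact gm_val hT
      _ ≤ Real.exp ((u:ℝ) ^ 2) * C * D * (1 + T + |α|) ^ (u * k) * (9 * (1 + T + |α|)) := by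
          gcongr
          linarith
      _ = _ := by rw [pow_succ]; ring
  constructor
  · exact key u (by linarith) le_rfl rfl fun t => (hb t).1
  · refine key (-u) le_rfl (by linarith) (by ring) fun t => ?_
    have e : (1 / 2 + -(u:ℝ)) = 1 / 2 - u := by ring
    rw [e]
    exact (hb t).2

lemma ft_norm_le (F : ℝ → ℂ) (w : ℝ) : ‖𝓕 F w‖ ≤ ∫ t, ‖F t‖ := by
  rw [ft_eq]
  refine (norm_integral_le_integral_norm _).trans (le_of_eq ?_)
  refine integral_congr_ae (Eventually.of_forall fun t => ?_)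
  simp only
  rw [norm_mul, Complex.norm_exp]
  simp

/-- decay of the Fourier transform -/
lemma ft_decay (k : ℕ) {u : ℕ} (hu : 1 ≤ u) : ∃ C : ℝ, 1 ≤ C ∧ ∀ T : ℝ, 1 ≤ T → ∀ α w : ℝ,
    ‖𝓕 (Fn (Gk k α) T 0) w‖ ≤ Real.exp (-(2 * Real.pi * |w| * u)) * (C * (1 + T + |α|) ^ (u * k + 1)) := by
  obtain ⟨C, hC, hb⟩ := Fn_L1 k hu
  have hu0 : (0:ℝ) ≤ u := Nat.cast_nonneg u
  refine ⟨C, hC, fun T hT α w => ?_⟩
  have hG := Gk_PG k hu α
  rcases le_total 0 w with hw | hw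
  · have h := Fn_shift hG hT (r1 := 0) (r2 := u) (by linarith) hu0 le_rfl w
    have h1 : 𝓕 (Fn (Gk k α) T 0) w = cexp (-(2 * Real.pi * w * (u:ℝ) : ℝ)) * 𝓕 (Fn (Gk k α) T u) w := by
      rw [← h]; simp
    rw [h1, norm_mul, ← Complex.ofReal_neg, Complex.norm_exp_ofReal, abs_of_nonneg hw]
    exact mul_le_mul_of_nonneg_left ((ft_norm_le _ _).trans (hb T hT α).1) (Real.exp_pos _).le
  · have h := Fn_shift hG hT (r1 := -u) (r2 := 0) le_rfl (by linarith) hu0 w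
    have h1 : 𝓕 (Fn (Gk k α) T 0) w = cexp (-(2 * Real.pi * w * (-(u:ℝ)) : ℝ)) * 𝓕 (Fn (Gk k α) T (-u)) w := by
      rw [h]; simp
    rw [h1, norm_mul, ← Complex.ofReal_neg, Complex.norm_exp_ofReal, abs_of_nonpos hw]
    have e : -(2 * Real.pi * w * -(u:ℝ)) = -(2 * Real.pi * -w * u) := by ring
    rw [e]
    exact mul_le_mul_of_nonneg_left ((ft_norm_le _ _).trans (hb T hT α).2) (Real.exp_pos _).le

end

end Pool.Agent.J4.H63.SA
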