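import Pool.Agent.J4.H63.SA.S2

set_option autoImplicit false

/-! Poisson summation: sampling of `v_T P`. -/

namespace Pool.Agent.J4.H63.SA

open Complex MeasureTheory Filter Topology Set Pool.Agent.TH535.SM Asymptotics
open scoped FourierTransform

noncomputable section

/-- `∑ 2^{-|n|}` -/
def S0 : ℝ := ∑' n : ℤ, (1 / 2 : ℝ) ^ n.natAbs

lemma S0_sum : Summable (fun n : ℤ => (1 / 2 : ℝ) ^ n.natAbs) := by
  have h : Summable (fun n : ℕ => (1 / 2 : ℝ) ^ n) := summable_geometric_two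
  refine Summable.of_nat_of_neg ?_ ?_
  · simpa using h
  · simpa using h

lemma S0_nonneg : 0 ≤ S0 := tsum_nonneg fun _ => by positivity

/-- Poisson summation with step `h` -/
lemma poisson {F : ℝ → ℂ} (hF : Dec F) {h : ℝ} (hh : 0 < h) {K r : ℝ} (hK : 0 ≤ K) (hr0 : 0 ≤ r) (hr : r ≤ 1 / 2)
    (hb : ∀ n : ℤ, ‖𝓕 F (n / h)‖ ≤ K * r ^ n.natAbs) (x : ℝ) :
    ‖(h : ℂ) * (∑' n : ℤ, F (x + n * h)) - ∫ t, F t‖ ≤ 2 * r * (K * S0) := by
  set f0 : ℝ → ℂ := fun y => F (h * y) with hf0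
  have hc : Continuous f0 := hF.cont.comp (by fun_prop)
  obtain ⟨B, hB, hBd⟩ := hF.bd
  have hO : IsBigO (cocompact ℝ) f0 (fun y : ℝ => |y| ^ (-(2:ℝ))) := by
    refine IsBigO.of_bound (B / h ^ 2) ?_
    have h1 : ∀ᶠ y : ℝ in cocompact ℝ, y ≠ 0 := by
      have := (isCompact_singleton (x := (0:ℝ))).compl_mem_cocompact
      filter_upwards [this] with y hy
      simpa using hy
    filter_upwards [h1] with y hy
    have hy0 : 0 < |y| := abs_pos.2 hy
    rw [hf0]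
    simp only
    have h2 := hBd (h * y)
    have h3 : h * |y| ≤ 1 + |h * y| := by
      rw [abs_mul, abs_of_pos hh]; linarith
    have h4 : ‖|y| ^ (-(2:ℝ))‖ = (|y| ^ 2)⁻¹ := by
      rw [Real.norm_of_nonneg (by positivity), Real.rpow_neg hy0.le]
      norm_cast
    rw [h4]
    calc ‖F (h * y)‖ ≤ B * ((1 + |h * y|) ^ 2)⁻¹ := h2
      _ ≤ B * ((h * |y|) ^ 2)⁻¹ := by gcongr
      _ = B / h ^ 2 * (|y| ^ 2)⁻¹ := by
          rw [mul_pow, mul_inv]; ring
  have hft : ∀ w : ℝ, 𝓕 f0 w = (h : ℂ)⁻¹ * 𝓕 F (w / h) := by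
    intro w
    rw [ft_eq, ft_eq, hf0]
    have h1 := Measure.integral_comp_mul_left (fun t : ℝ => cexp (-(2 * Real.pi * ((w / h : ℝ) : ℂ) * t * I)) * F t) h
    rw [abs_of_pos (inv_pos.2 hh)] at h1
    rw [← Complex.ofReal_inv, ← Complex.real_smul, ← h1]
    refine integral_congr_ae (Eventually.of_forall fun t => ?_)
    simp only
    congr 2
    have hhc : (h : ℂ) ≠ 0 := by exact_mod_cast hh.ne'
    push_cast
    field_simp
  have hbd : ∀ n : ℤ, ‖𝓕 f0 n‖ ≤ h⁻¹ * (K * r ^ n.natAbs) := by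
    intro n
    rw [hft, norm_mul, norm_inv, Complex.norm_real, Real.norm_of_nonneg hh.le]
    exact mul_le_mul_of_nonneg_left (hb n) (by positivity)
  have hle2 : ∀ n : ℤ, r ^ n.natAbs ≤ (1 / 2 : ℝ) ^ n.natAbs := fun n => pow_le_pow_left₀ hr0 hr _
  have hsum : Summable (fun n : ℤ => 𝓕 f0 n) := by
    refine Summable.of_norm_bounded (S0_sum.mul_left (h⁻¹ * K)) fun n => (hbd n).trans ?_
    rw [mul_assoc]
    have := hle2 n
    gcongr
  have hP := Real.tsum_eq_tsum_fourier_of_rpow_decay_of_summable hc (by norm_num : (1:ℝ) < 2) hO hsum (x / h)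
  have e1 : ∀ n : ℤ, f0 (x / h + n) = F (x + n * h) := by
    intro n
    rw [hf0]
    simp only
    congr 1
    field_simp
  simp_rw [e1] at hP
  have hfn : ∀ n : ℤ, ‖fourier n ((x / h : ℝ) : UnitAddCircle)‖ = 1 := fun n => Circle.norm_coe _
  have hsum2 : Summable (fun n : ℤ => 𝓕 f0 n * fourier n ((x / h : ℝ) : UnitAddCircle)) := by
    refine Summable.of_norm ?_
    simp_rw [norm_mul, hfn, mul_one]
    exact hsum.norm
  have h0 : 𝓕 f0 ((0:ℤ) : ℝ) * fourier 0 ((x / h : ℝ) : UnitAddCircle) = (h : ℂ)⁻¹ * ∫ t, F t := by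
    rw [fourier_zero, mul_one, hft, ft_eq]
    simp
  have hsplit := hsum2.tsum_eq_add_tsum_ite (0 : ℤ)
  rw [h0] at hsplit
  have hhc : (h : ℂ) ≠ 0 := by exact_mod_cast hh.ne'
  rw [hP, hsplit, mul_add, ← mul_assoc, mul_inv_cancel₀ hhc, one_mul, add_sub_cancel_left, norm_mul,
    Complex.norm_real, Real.norm_of_nonneg hh.le]
  have hterm : ∀ n : ℤ, ‖(if n = 0 then (0:ℂ) else 𝓕 f0 n * fourier n ((x / h : ℝ) : UnitAddCircle))‖ ≤
      h⁻¹ * K * (2 * r) * (1 / 2 : ℝ) ^ n.natAbs := by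
    intro n
    split_ifs with hn
    · rw [norm_zero]; positivity
    · rw [norm_mul, hfn, mul_one]
      refine (hbd n).trans ?_
      obtain ⟨m, hm⟩ : ∃ m, n.natAbs = m + 1 := Nat.exists_eq_succ_of_ne_zero (by omega)
      rw [hm, pow_succ, pow_succ]
      have h5 : r ^ m ≤ (1 / 2 : ℝ) ^ m := pow_le_pow_left₀ hr0 hr _
      calc h⁻¹ * (K * (r ^ m * r)) ≤ h⁻¹ * (K * ((1 / 2 : ℝ) ^ m * r)) := by gcongr
        _ = _ := by ring
  have hfin := tsum_of_norm_bounded (S0_sum.mul_left (h⁻¹ * K * (2 * r))).hasSum hterm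
  rw [tsum_mul_left] at hfin
  calc _ ≤ h * (h⁻¹ * K * (2 * r) * S0) := by
        refine mul_le_mul_of_nonneg_left ?_ hh.le
        exact hfin
    _ = _ := by field_simp

/-- **Sampling of the smoothed moment.** -/
theorem sample_smooth (k : ℕ) {c : ℝ} (hc : 0 < c) (hck : c * k < 2 * Real.pi) {A : ℝ} (hA : 0 ≤ A) :
    ∃ C : ℝ, 1 ≤ C ∧ ∀ X : ℝ, 2 ≤ X → ∀ h : ℝ, 0 < h → h * Real.log X ≤ c → ∀ T α : ℝ, 1 ≤ T → 1 + T + |α| ≤ 4 * X →
      ∀ x : ℝ, |h * (∑' n : ℤ, v T (x + n * h) * P k (x + n * h + α)) - ∫ t, v T t * P k (t + α)| ≤ C * X ^ (-A) := by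
  have hpi := Real.pi_pos
  set δ : ℝ := 2 * Real.pi / c - k with hδ
  have hδ0 : 0 < δ := by
    rw [hδ, sub_pos, lt_div_iff₀ hc]; linarith
  obtain ⟨u, hu⟩ := exists_nat_ge (max 1 ((A + 1) / δ))
  have hu1 : 1 ≤ u := by
    have : (1:ℝ) ≤ u := (le_max_left _ _).trans hu
    exact_mod_cast this
  have hu2 : A + 1 ≤ δ * u := by
    have : (A + 1) / δ ≤ u := (le_max_right _ _).trans hu
    rw [div_le_iff₀ hδ0] at this
    linarith
  obtain ⟨C, hC, hb⟩ := ft_decay k hu1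
  have hC4 : (1:ℝ) ≤ (4:ℝ) ^ (u * k + 1) := one_le_pow₀ (by norm_num)
  refine ⟨1 + 2 * (C * 4 ^ (u * k + 1) * S0), ?_, fun X hX h hh hhX T α hT hTα x => ?_⟩
  · have := S0_nonneg
    have : 0 ≤ 2 * (C * 4 ^ (u * k + 1) * S0) := by positivity
    linarith
  have hX0 : 0 < X := by linarith
  have hL : 0 < Real.log X := Real.log_pos (by linarith)
  have hα := abs_nonneg α
  set r : ℝ := Real.exp (-(2 * Real.pi * (1 / h) * u)) with hr
  set K : ℝ := C * (1 + T + |α|) ^ (u * k + 1) with hK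
  have hK0 : 0 ≤ K := by positivity
  have hu0 : (0:ℝ) < u := by exact_mod_cast hu1
  -- the size of `r`
  have hrX : r ≤ X ^ (-((k + δ) * u)) := by
    rw [hr, Real.rpow_def_of_pos hX0]
    refine Real.exp_le_exp.2 ?_
    have h1 : Real.log X / c ≤ 1 / h := by
      rw [div_le_div_iff₀ hc hh]; linarith
    have h2 : (k : ℝ) + δ = 2 * Real.pi / c := by rw [hδ]; ring
    rw [h2]
    have h3 : 2 * Real.pi * u * (Real.log X / c) ≤ 2 * Real.pi * u * (1 / h) := by gcongr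
    have e1 : Real.log X * -(2 * Real.pi / c * u) = -(2 * Real.pi * u * (Real.log X / c)) := by ring
    rw [e1]
    linarith
  have hr0 : 0 ≤ r := (Real.exp_pos _).le
  have hr2 : r ≤ 1 / 2 := by
    refine hrX.trans ?_
    have h1 : X ^ (-((k + δ) * u)) ≤ X ^ (-(1:ℝ)) := by
      refine Real.rpow_le_rpow_of_exponent_le (by linarith) ?_
      have : 0 ≤ (k:ℝ) * u := by positivity
      nlinarith
    refine h1.trans ?_
    rw [Real.rpow_neg_one, one_div]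
    exact inv_anti₀ (by norm_num) hX
  have hdec : Dec (Fn (Gk k α) T 0) := Fn_dec (Gk_PG k hu1 α) hT (r := 0) (by simp) (by positivity)
  have hbn : ∀ n : ℤ, ‖𝓕 (Fn (Gk k α) T 0) (n / h)‖ ≤ K * r ^ n.natAbs := by
    intro n
    refine (hb T hT α (n / h)).trans (le_of_eq ?_)
    rw [hr, hK, mul_comm, ← Real.exp_nat_mul]
    congr 2
    rw [abs_div, abs_of_pos hh]
    have : (n.natAbs : ℝ) = |(n : ℝ)| := by
      rw [Nat.cast_natAbs, Int.cast_abs]
    rw [this]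
    ring
  have hmain := poisson hdec hh hK0 hr0 hr2 hbn x
  simp_rw [Gk_line] at hmain
  rw [← Complex.ofReal_tsum, integral_complex_ofReal, ← Complex.ofReal_mul, ← Complex.ofReal_sub, Complex.norm_real,
    Real.norm_eq_abs] at hmain
  refine hmain.trans ?_
  have hKX : K ≤ C * 4 ^ (u * k + 1) * X ^ ((u * k + 1 : ℕ) : ℝ) := by
    rw [hK, mul_assoc, Real.rpow_natCast, ← mul_pow]
    gcongr
  have hX2 : X ^ (-((k + δ) * u)) * X ^ ((u * k + 1 : ℕ) : ℝ) ≤ X ^ (-A) := by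
    rw [← Real.rpow_add hX0]
    refine Real.rpow_le_rpow_of_exponent_le (by linarith) ?_
    push_cast
    nlinarith
  have hS := S0_nonneg
  calc 2 * r * (K * S0) ≤ 2 * X ^ (-((k + δ) * u)) * ((C * 4 ^ (u * k + 1) * X ^ ((u * k + 1 : ℕ) : ℝ)) * S0) := by
        gcongr
    _ = 2 * (C * 4 ^ (u * k + 1) * S0) * (X ^ (-((k + δ) * u)) * X ^ ((u * k + 1 : ℕ) : ℝ)) := by ring
    _ ≤ 2 * (C * 4 ^ (u * k + 1) * S0) * X ^ (-A) := by gcongr
    _ ≤ (1 + 2 * (C * 4 ^ (u * k + 1) * S0)) * X ^ (-A) := by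
        gcongr
        linarith

end

end Pool.Agent.J4.H63.SA
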