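import Pool.Agent.J4.H63.SA.S3

set_option autoImplicit false

/-! Sums and integrals of Gaussians times polynomials; the comparison with sharp cut-offs. -/

namespace Pool.Agent.J4.H63.SA

open Complex MeasureTheory Filter Topology Set Pool.Agent.TH535.SM Asymptotics
open scoped FourierTransform

noncomputable section

/-- the moment integrand -/
def Z (k : ℕ) (t : ℝ) : ℝ := ‖riemannZeta (1 / 2 + t * I)‖ ^ (2 * k)

lemma Z_nonneg (k : ℕ) (t : ℝ) : 0 ≤ Z k t := by unfold Z; positivity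

lemma line_ne' (t : ℝ) : (1 / 2 + (t : ℂ) * I) ≠ 1 := by
  intro h
  have := congrArg Complex.re h
  simp at this

lemma Z_cont (k : ℕ) : Continuous (Z k) := by
  have h : Continuous (fun t : ℝ => riemannZeta (1 / 2 + t * I)) := by
    rw [continuous_iff_continuousAt]
    intro t
    have h := (differentiableAt_riemannZeta (line_ne' t)).continuousAt
    exact ContinuousAt.comp (f := fun t : ℝ => (1 / 2 + (t : ℂ) * I)) h (by fun_prop)
  exact h.norm.pow _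

lemma Z_bd (k : ℕ) : ∃ (C : ℝ) (p : ℕ), 1 ≤ C ∧ ∀ t : ℝ, Z k t ≤ C * (1 + |t|) ^ p := by
  refine ⟨24 ^ (2 * k), 2 * (2 * k), one_le_pow₀ (by norm_num), fun t => ?_⟩
  have h := H306R2.zeta_norm_le (s := 1 / 2 + t * I) (by simp) (by
    have h1 := Complex.abs_re_le_norm (1 / 2 + (t : ℂ) * I - 1)
    have h2 : (1 / 2 + (t : ℂ) * I - 1).re = -(1 / 2) := by simp; norm_num
    rw [h2] at h1
    rw [abs_neg, abs_of_pos (by norm_num : (0:ℝ) < 1 / 2)] at h1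
    exact h1)
  have h2 : ‖(1 / 2 : ℂ) + t * I‖ ≤ 1 / 2 + |t| := by
    refine (norm_add_le _ _).trans ?_
    rw [norm_mul, norm_I, Complex.norm_real, Real.norm_eq_abs]
    simp
  have habs := abs_nonneg t
  have h3 : ‖riemannZeta (1 / 2 + t * I)‖ ≤ 24 * (1 + |t|) ^ 2 := by
    refine h.trans ?_
    have : ‖(1 / 2 : ℂ) + t * I‖ + 1 ≤ 2 * (1 + |t|) := by linarith
    calc 6 * (‖(1 / 2 : ℂ) + t * I‖ + 1) ^ 2 ≤ 6 * (2 * (1 + |t|)) ^ 2 := by gcongr
      _ = _ := by ring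
  unfold Z
  calc _ ≤ (24 * (1 + |t|) ^ 2) ^ (2 * k) := by gcongr
    _ = _ := by rw [mul_pow, ← pow_mul]

lemma P_eq (k : ℕ) (t : ℝ) : P k t = q t ^ k * Z k t := by
  unfold P Z
  rw [mul_pow, ← pow_mul]

lemma P_le (k : ℕ) (t : ℝ) : P k t ≤ Z k t := by
  rw [P_eq]
  exact mul_le_of_le_one_left (Z_nonneg k t) (pow_le_one₀ (q_nonneg t) (q_le_one t))

lemma q_mono {a t : ℝ} (ha : 0 ≤ a) (hat : a ≤ t) : q a ≤ q t := by
  unfold q
  have : Real.exp (-(1 / 4 + t ^ 2)) ≤ Real.exp (-(1 / 4 + a ^ 2)) :=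
    Real.exp_le_exp.2 (by nlinarith)
  linarith

lemma le_P {k : ℕ} {a t : ℝ} (ha : 0 ≤ a) (hat : a ≤ t) : q a ^ k * Z k t ≤ P k t := by
  rw [P_eq]
  refine mul_le_mul_of_nonneg_right (pow_le_pow_left₀ (q_nonneg a) (q_mono ha hat) k) (Z_nonneg k t)

lemma P_cont (k : ℕ) : Continuous (P k) := by
  have e : P k = fun t => q t ^ k * Z k t := funext fun t => P_eq k t
  rw [e]
  have h1 := Z_cont k
  have h2 : Continuous q := by unfold q; fun_prop
  exact (h2.pow k).mul h1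

/-! Sums over arithmetic progressions. -/

lemma inv_sum (y : ℝ) {h : ℝ} (hh : 0 < h) (hh1 : h ≤ 1) :
    Summable (fun n : ℤ => (1 + (y + n * h) ^ 2)⁻¹) ∧ h * ∑' n : ℤ, (1 + (y + n * h) ^ 2)⁻¹ ≤ 3 * Real.pi := by
  set φ : ℝ → ℝ := fun t => (1 + (y + h * t) ^ 2)⁻¹ with hφ
  have hI0 : Integrable (fun t : ℝ => (1 + (y + t) ^ 2)⁻¹) := by
    have := integrable_inv_one_add_sq.comp_add_left y
    exact this
  have hI : Integrable φ := by
    have := hI0.comp_mul_left' (R := h) hh.ne'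
    exact this
  have hval : ∫ t, φ t = h⁻¹ * Real.pi := by
    have h1 := Measure.integral_comp_mul_left (fun t : ℝ => (1 + (y + t) ^ 2)⁻¹) h
    rw [abs_of_pos (inv_pos.2 hh), smul_eq_mul] at h1
    rw [hφ, h1]
    congr 1
    rw [integral_add_left_eq_self (fun t : ℝ => (1 + t ^ 2)⁻¹) y]
    exact integral_univ_inv_one_add_sq
  have hsum := (hI.hasSum_intervalIntegral 0)
  rw [hval] at hsum
  have hle : ∀ n : ℤ, (1 + (y + n * h) ^ 2)⁻¹ ≤ 3 * ∫ t in (0:ℝ) + n..(0:ℝ) + n + 1, φ t := by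
    intro n
    have h1 : (1 + (y + n * h) ^ 2)⁻¹ = ∫ t in (0:ℝ) + n..(0:ℝ) + n + 1, (1 + (y + n * h) ^ 2)⁻¹ := by
      rw [intervalIntegral.integral_const]
      simp
    rw [h1, ← intervalIntegral.integral_const_mul]
    refine intervalIntegral.integral_mono_on (by linarith) intervalIntegrable_const
      ((hI.const_mul 3).intervalIntegrable) (fun t ht => ?_)
    rw [hφ]
    simp only
    rw [← div_eq_mul_inv, inv_eq_one_div, div_le_div_iff₀ (by positivity) (by positivity)]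
    have h2 : y + h * t = (y + n * h) + h * (t - n) := by ring
    obtain ⟨d, hd⟩ : ∃ d, d = h * (t - n) := ⟨_, rfl⟩
    have hd0 : 0 ≤ d := by rw [hd]; exact mul_nonneg hh.le (by linarith [ht.1])
    have hd1 : d ≤ 1 := by
      rw [hd]
      calc h * (t - n) ≤ 1 * 1 := mul_le_mul hh1 (by linarith [ht.2]) (by linarith [ht.1]) (by norm_num)
        _ = 1 := by norm_num
    rw [h2, ← hd]
    nlinarith [sq_nonneg (y + n * h - d)]
  have hs1 : Summable (fun n : ℤ => 3 * ∫ t in (0:ℝ) + n..(0:ℝ) + n + 1, φ t) := hsum.summable.mul_left 3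
  have hs2 : Summable (fun n : ℤ => (1 + (y + n * h) ^ 2)⁻¹) :=
    Summable.of_nonneg_of_le (fun n => by positivity) hle hs1
  refine ⟨hs2, ?_⟩
  calc h * ∑' n : ℤ, (1 + (y + n * h) ^ 2)⁻¹ ≤ h * ∑' n : ℤ, 3 * ∫ t in (0:ℝ) + n..(0:ℝ) + n + 1, φ t := by
        refine mul_le_mul_of_nonneg_left ?_ hh.le
        exact hs2.tsum_le_tsum hle hs1
    _ = h * (3 * (h⁻¹ * Real.pi)) := by rw [tsum_mul_left, hsum.tsum_eq]
    _ = _ := by field_simp

lemma Dec_sum {F : ℝ → ℂ} (hF : Dec F) (y : ℝ) {h : ℝ} (hh : 0 < h) (hh1 : h ≤ 1) :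
    Summable (fun n : ℤ => F (y + n * h)) := by
  obtain ⟨B, hB, hb⟩ := hF.bd
  refine Summable.of_norm_bounded ((inv_sum y hh hh1).1.mul_left B) fun n => (hb _).trans ?_
  refine mul_le_mul_of_nonneg_left (inv_anti₀ (by positivity) ?_) hB
  have h1 := abs_nonneg (y + n * h)
  have h2 := sq_abs (y + n * h)
  nlinarith

lemma vP_sum (k : ℕ) {T : ℝ} (hT : 1 ≤ T) (α y : ℝ) {h : ℝ} (hh : 0 < h) (hh1 : h ≤ 1) :
    Summable (fun n : ℤ => v T (y + n * h) * P k (y + n * h + α)) := by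
  have hdec : Dec (Fn (Gk k α) T 0) := Fn_dec (Gk_PG k (u := 1) le_rfl α) hT (r := 0) (by simp) (by positivity)
  have := Dec_sum hdec y hh hh1
  simp_rw [Gk_line] at this
  exact Complex.summable_ofReal.1 this

lemma vP_int (k : ℕ) {T : ℝ} (hT : 1 ≤ T) (α : ℝ) : Integrable (fun t : ℝ => v T t * P k (t + α)) := by
  have hdec : Dec (Fn (Gk k α) T 0) := Fn_dec (Gk_PG k (u := 1) le_rfl α) hT (r := 0) (by simp) (by positivity)
  have h1 := hdec.int
  have e : Fn (Gk k α) T 0 = fun t : ℝ => ((v T t * P k (t + α) : ℝ) : ℂ) := funext fun t => Gk_line k α T t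
  rw [e] at h1
  have h2 := h1.re
  refine h2.congr (Eventually.of_forall fun t => ?_)
  simp only [RCLike.re_eq_complex_re, Complex.ofReal_re]

/-- Gaussians times polynomials -/
lemma gauss_pt (p : ℕ) : ∃ C : ℝ, 1 ≤ C ∧ ∀ τ t : ℝ,
    Real.exp (-(t - τ) ^ 2 / 4) * (1 + |t|) ^ p ≤ C * (1 + |τ|) ^ p * (1 + (t - τ) ^ 2)⁻¹ := by
  have hf1 : (1:ℝ) ≤ (p + 2).factorial := by exact_mod_cast Nat.succ_le_of_lt (Nat.factorial_pos (p + 2))
  have he : (1:ℝ) ≤ Real.exp 3 := Real.one_le_exp (by norm_num)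
  refine ⟨(p + 2).factorial * Real.exp 3, one_le_mul_of_one_le_of_one_le hf1 he, fun τ t => ?_⟩
  have hd := abs_nonneg (t - τ)
  have h1 : 1 + |t| ≤ (1 + |t - τ|) * (1 + |τ|) := by
    have h2 := abs_add_le (t - τ) τ
    rw [sub_add_cancel] at h2
    nlinarith [mul_nonneg hd (abs_nonneg τ)]
  have h3 := poly_exp8 (p + 2) hd
  rw [sq_abs] at h3
  have h4 : Real.exp (-(t - τ) ^ 2 / 8) ≤ 1 := Real.exp_le_one_iff.2 (by nlinarith [sq_nonneg (t - τ)])
  have h5 : (1 + |t - τ|) ^ (p + 2) * Real.exp (-(t - τ) ^ 2 / 4) ≤ (p + 2).factorial * Real.exp 3 :=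
    h3.trans (mul_le_of_le_one_right (by positivity) h4)
  have h6 : (1 + |t - τ|) ^ p * Real.exp (-(t - τ) ^ 2 / 4) ≤
      ((p + 2).factorial * Real.exp 3) * (1 + (t - τ) ^ 2)⁻¹ := by
    rw [← div_eq_mul_inv, le_div_iff₀ (by positivity)]
    refine le_trans ?_ h5
    have h7 : 1 + (t - τ) ^ 2 ≤ (1 + |t - τ|) ^ 2 := by
      have := sq_abs (t - τ)
      nlinarith
    calc _ ≤ (1 + |t - τ|) ^ p * Real.exp (-(t - τ) ^ 2 / 4) * (1 + |t - τ|) ^ 2 := by gcongr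
      _ = _ := by rw [pow_add]; ring
  calc _ ≤ Real.exp (-(t - τ) ^ 2 / 4) * ((1 + |t - τ|) * (1 + |τ|)) ^ p := by gcongr
    _ = (1 + |τ|) ^ p * ((1 + |t - τ|) ^ p * Real.exp (-(t - τ) ^ 2 / 4)) := by rw [mul_pow]; ring
    _ ≤ (1 + |τ|) ^ p * (((p + 2).factorial * Real.exp 3) * (1 + (t - τ) ^ 2)⁻¹) := by gcongr
    _ = _ := by ring

/-- sums and integrals of Gaussian times `P` -/
lemma gauss_all (k : ℕ) : ∃ (C : ℝ) (p : ℕ), 1 ≤ C ∧
    (∀ τ x h : ℝ, 0 < h → h ≤ 1 → Summable (fun n : ℤ => Real.exp (-(x + n * h - τ) ^ 2 / 4) * P k (x + n * h)) ∧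
      h * ∑' n : ℤ, Real.exp (-(x + n * h - τ) ^ 2 / 4) * P k (x + n * h) ≤ C * (1 + |τ|) ^ p) ∧
    (∀ τ : ℝ, Integrable (fun t : ℝ => Real.exp (-(t - τ) ^ 2 / 4) * P k t) ∧
      ∫ t : ℝ, Real.exp (-(t - τ) ^ 2 / 4) * P k t ≤ C * (1 + |τ|) ^ p) := by
  obtain ⟨C1, p, hC1, h1⟩ := Z_bd k
  obtain ⟨C2, hC2, h2⟩ := gauss_pt p
  have hpi := Real.pi_gt_three
  have hC0 : 1 ≤ C1 * C2 := one_le_mul_of_one_le_of_one_le hC1 hC2
  have hpt : ∀ τ t : ℝ, Real.exp (-(t - τ) ^ 2 / 4) * P k t ≤ C1 * C2 * (1 + |τ|) ^ p * (1 + (t - τ) ^ 2)⁻¹ := by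
    intro τ t
    calc _ ≤ Real.exp (-(t - τ) ^ 2 / 4) * (C1 * (1 + |t|) ^ p) := by
          gcongr
          exact (P_le k t).trans (h1 t)
      _ = C1 * (Real.exp (-(t - τ) ^ 2 / 4) * (1 + |t|) ^ p) := by ring
      _ ≤ C1 * (C2 * (1 + |τ|) ^ p * (1 + (t - τ) ^ 2)⁻¹) := by
          have := h2 τ t
          gcongr
      _ = _ := by ring
  refine ⟨C1 * C2 * (3 * Real.pi), p, by nlinarith, ?_, ?_⟩
  · intro τ x h hh hh1
    obtain ⟨s1, s2⟩ := inv_sum (x - τ) hh hh1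
    have e : ∀ n : ℤ, x + n * h - τ = x - τ + n * h := fun n => by ring
    have hle : ∀ n : ℤ, Real.exp (-(x + n * h - τ) ^ 2 / 4) * P k (x + n * h) ≤
        C1 * C2 * (1 + |τ|) ^ p * (1 + (x - τ + n * h) ^ 2)⁻¹ := by
      intro n
      have := hpt τ (x + n * h)
      rwa [e] at this ⊢
    have s3 : Summable (fun n : ℤ => C1 * C2 * (1 + |τ|) ^ p * (1 + (x - τ + n * h) ^ 2)⁻¹) := s1.mul_left _
    have s4 := Summable.of_nonneg_of_le (fun n : ℤ => mul_nonneg (Real.exp_pos (-(x + n * h - τ) ^ 2 / 4)).le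
      (P_nonneg k (x + n * h))) hle s3
    refine ⟨s4, ?_⟩
    calc _ ≤ h * ∑' n : ℤ, C1 * C2 * (1 + |τ|) ^ p * (1 + (x - τ + n * h) ^ 2)⁻¹ := by
          refine mul_le_mul_of_nonneg_left ?_ hh.le
          exact s4.tsum_le_tsum hle s3
      _ = C1 * C2 * (1 + |τ|) ^ p * (h * ∑' n : ℤ, (1 + (x - τ + n * h) ^ 2)⁻¹) := by
          rw [tsum_mul_left]; ring
      _ ≤ C1 * C2 * (1 + |τ|) ^ p * (3 * Real.pi) := by gcongr
      _ = _ := by ring
  · intro τ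
    have i1 : Integrable (fun t : ℝ => C1 * C2 * (1 + |τ|) ^ p * (1 + (t - τ) ^ 2)⁻¹) :=
      (integrable_inv_one_add_sq.comp_sub_right τ).const_mul _
    have hcont := P_cont k
    have i2 : Integrable (fun t : ℝ => Real.exp (-(t - τ) ^ 2 / 4) * P k t) := by
      refine i1.mono' (by fun_prop : Continuous _).aestronglyMeasurable (Eventually.of_forall fun t => ?_)
      rw [Real.norm_of_nonneg (mul_nonneg (Real.exp_pos _).le (P_nonneg k t))]
      exact hpt τ t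
    refine ⟨i2, ?_⟩
    calc _ ≤ ∫ t, C1 * C2 * (1 + |τ|) ^ p * (1 + (t - τ) ^ 2)⁻¹ := integral_mono i2 i1 (hpt τ)
      _ = C1 * C2 * (1 + |τ|) ^ p * Real.pi := by
          rw [integral_const_mul, integral_sub_right_eq_self (fun t : ℝ => (1 + t ^ 2)⁻¹) τ,
            integral_univ_inv_one_add_sq]
      _ ≤ C1 * C2 * (1 + |τ|) ^ p * (3 * Real.pi) := by
          gcongr
          linarith
      _ = _ := by ring

end

end Pool.Agent.J4.H63.SA
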