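import Pool.Agent.J4.H63.SA.S4

set_option autoImplicit false

/-! The sampling theorem with sharp cut-offs. -/

namespace Pool.Agent.J4.H63.SA

open Complex MeasureTheory Filter Topology Set Pool.Agent.TH535.SM Asymptotics
open scoped FourierTransform

noncomputable section

lemma sqrt2_le : √2 ≤ (3 / 2 : ℝ) := by
  rw [Real.sqrt_le_left (by norm_num)]
  norm_num

lemma exp_half {d Δ : ℝ} (hΔ : 0 ≤ Δ) (h : Δ ≤ |d|) :
    Real.exp (-d ^ 2 / 2) ≤ Real.exp (-Δ ^ 2 / 4) * Real.exp (-d ^ 2 / 4) := by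
  rw [← Real.exp_add]
  refine Real.exp_le_exp.2 ?_
  have : Δ ^ 2 ≤ d ^ 2 := by
    rw [← sq_abs d]
    gcongr
  linarith

lemma pt_low {k : ℕ} {a t α T Δ : ℝ} (hT : 0 ≤ T) (ha : 0 ≤ a) (hat : a ≤ t) (hΔ : 0 ≤ Δ) (h1 : α + Δ ≤ t)
    (h2 : t ≤ α + T - Δ) :
    (1 - 3 * Real.exp (-Δ ^ 2 / 4)) * (q a ^ k * Z k t) ≤ v T (t - α) * P k t := by
  have hv := v_mid (T := T) (t := t - α) hT (by linarith) (by linarith)
  have e0 : ∀ d : ℝ, Δ ≤ |d| → Real.exp (-d ^ 2 / 2) ≤ Real.exp (-Δ ^ 2 / 4) := by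
    intro d hd
    have h3 := exp_half hΔ hd
    have h4 : Real.exp (-d ^ 2 / 4) ≤ 1 := Real.exp_le_one_iff.2 (by nlinarith [sq_nonneg d])
    exact h3.trans (mul_le_of_le_one_right (Real.exp_pos _).le h4)
  have a1 := e0 (t - α) (by rw [abs_of_nonneg (by linarith)]; linarith)
  have a2 := e0 (t - α - T) (by rw [abs_of_nonpos (by linarith)]; linarith)
  have hs := sqrt2_le
  have hs0 : 0 ≤ √2 := Real.sqrt_nonneg 2
  have hρ := Real.exp_pos (-Δ ^ 2 / 4)
  have h5 : 1 - 3 * Real.exp (-Δ ^ 2 / 4) ≤ v T (t - α) := by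
    have h6 : √2 * (Real.exp (-(t - α) ^ 2 / 2) + Real.exp (-(t - α - T) ^ 2 / 2)) ≤
        3 / 2 * (2 * Real.exp (-Δ ^ 2 / 4)) := by
      refine mul_le_mul hs (by linarith) (by positivity) (by norm_num)
    linarith
  have h7 := le_P (k := k) ha hat
  have h8 : 0 ≤ q a ^ k * Z k t := mul_nonneg (pow_nonneg (q_nonneg a) k) (Z_nonneg k t)
  calc _ ≤ v T (t - α) * (q a ^ k * Z k t) := mul_le_mul_of_nonneg_right h5 h8
    _ ≤ _ := mul_le_mul_of_nonneg_left h7 (v_nonneg hT _)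

lemma pt_up {k : ℕ} {t α T Δ : ℝ} (hT : 0 ≤ T) (hΔ : 0 ≤ Δ) :
    v T (t - α) * P k t ≤ (Icc (α - Δ) (α + T + Δ)).indicator (Z k) t +
      2 * Real.exp (-Δ ^ 2 / 4) * (Real.exp (-(t - α) ^ 2 / 4) * P k t +
        Real.exp (-(t - (α + T)) ^ 2 / 4) * P k t) := by
  have hP := P_nonneg k t
  have hρ := Real.exp_pos (-Δ ^ 2 / 4)
  have hs := sqrt2_le
  have e1 := Real.exp_pos (-(t - α) ^ 2 / 4)
  have e2 := Real.exp_pos (-(t - (α + T)) ^ 2 / 4)
  by_cases ht : t ∈ Icc (α - Δ) (α + T + Δ)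
  · rw [indicator_of_mem ht]
    have h1 : v T (t - α) * P k t ≤ 1 * Z k t :=
      mul_le_mul (v_le_one hT _) (P_le k t) hP (by norm_num)
    have h2 : 0 ≤ 2 * Real.exp (-Δ ^ 2 / 4) * (Real.exp (-(t - α) ^ 2 / 4) * P k t +
        Real.exp (-(t - (α + T)) ^ 2 / 4) * P k t) := by positivity
    linarith
  · rw [indicator_of_notMem ht, zero_add]
    rw [mem_Icc, not_and_or, not_le, not_le] at ht
    have key : ∀ d : ℝ, Δ ≤ |d| → v T (t - α) ≤ √2 * Real.exp (-d ^ 2 / 2) →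
        v T (t - α) * P k t ≤ 2 * Real.exp (-Δ ^ 2 / 4) * (Real.exp (-d ^ 2 / 4) * P k t) := by
      intro d hd hv
      have h3 := exp_half hΔ hd
      calc v T (t - α) * P k t ≤ (√2 * Real.exp (-d ^ 2 / 2)) * P k t := by gcongr
        _ ≤ (2 * (Real.exp (-Δ ^ 2 / 4) * Real.exp (-d ^ 2 / 4))) * P k t := by
            gcongr
            linarith
        _ = _ := by ring
    rcases ht with h | h
    · have h4 := key (t - α) (by rw [abs_of_nonpos (by linarith)]; linarith) (v_neg hT (by linarith))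
      refine h4.trans ?_
      gcongr
      have : 0 ≤ Real.exp (-(t - (α + T)) ^ 2 / 4) * P k t := by positivity
      linarith
    · have h4 := key (t - (α + T)) (by rw [abs_of_nonneg (by linarith)]; linarith) (by
        have := v_gt (T := T) (t := t - α) hT (by linarith)
        have e : t - α - T = t - (α + T) := by ring
        rwa [e] at this)
      refine h4.trans ?_
      gcongr
      have : 0 ≤ Real.exp (-(t - α) ^ 2 / 4) * P k t := by positivity
      linarith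

/-- `h` times the sum of `|ζ(1/2 + it)|^(2k)` over the points `t = x + nh` in `[a, b]` -/
def samp (k : ℕ) (x h a b : ℝ) : ℝ := h * ∑' n : ℤ, (Icc a b).indicator (Z k) (x + n * h)

lemma fin_pts (x : ℝ) {h : ℝ} (hh : 0 < h) (a b : ℝ) : {n : ℤ | x + n * h ∈ Icc a b}.Finite := by
  refine (Set.finite_Icc ⌈(a - x) / h⌉ ⌊(b - x) / h⌋).subset fun n hn => ?_
  have hn : x + n * h ∈ Icc a b := hn
  rw [mem_Icc] at hn
  rw [mem_Icc]
  constructor
  · rw [Int.ceil_le, div_le_iff₀ hh]; linarith [hn.1]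
  · rw [Int.le_floor, le_div_iff₀ hh]; linarith [hn.2]

lemma samp_sum (k : ℕ) (x : ℝ) {h : ℝ} (hh : 0 < h) (a b : ℝ) :
    Summable (fun n : ℤ => (Icc a b).indicator (Z k) (x + n * h)) := by
  refine summable_of_hasFiniteSupport ((fin_pts x hh a b).subset fun n hn => ?_)
  rw [Function.mem_support] at hn
  by_contra hcon
  have hc : x + n * h ∉ Icc a b := hcon
  exact hn (indicator_of_notMem hc _)

lemma int_ind (k : ℕ) {a b : ℝ} (hab : a ≤ b) :
    Integrable ((Icc a b).indicator (Z k)) ∧ ∫ t, (Icc a b).indicator (Z k) t = ∫ t in a..b, Z k t := by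
  constructor
  · rw [integrable_indicator_iff measurableSet_Icc]
    exact (Z_cont k).continuousOn.integrableOn_compact isCompact_Icc
  · rw [integral_indicator measurableSet_Icc, integral_Icc_eq_integral_Ioc,
      intervalIntegral.integral_of_le hab]

/-- the integral from above -/
lemma int_up {k : ℕ} {C : ℝ} {p : ℕ}
    (hg : ∀ τ : ℝ, Integrable (fun t : ℝ => Real.exp (-(t - τ) ^ 2 / 4) * P k t) ∧
      ∫ t : ℝ, Real.exp (-(t - τ) ^ 2 / 4) * P k t ≤ C * (1 + |τ|) ^ p) {α T Δ : ℝ} (hT : 1 ≤ T) (hΔ : 0 ≤ Δ) :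
    ∫ t, v T t * P k (t + α) ≤ (∫ t in (α - Δ)..(α + T + Δ), Z k t) +
      2 * Real.exp (-Δ ^ 2 / 4) * (C * (1 + |α|) ^ p + C * (1 + |α + T|) ^ p) := by
  have e1 : ∫ t, v T t * P k (t + α) = ∫ t, v T (t - α) * P k t := by
    rw [← integral_sub_right_eq_self (fun t : ℝ => v T t * P k (t + α)) α]
    simp
  have i1 : Integrable (fun t => v T (t - α) * P k t) := by
    have := (vP_int k hT α).comp_sub_right α
    simpa using this
  obtain ⟨i2, e2⟩ := int_ind k (a := α - Δ) (b := α + T + Δ) (by linarith)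
  obtain ⟨i3, e3⟩ := hg α
  obtain ⟨i4, e4⟩ := hg (α + T)
  have i5 : Integrable (fun t : ℝ => Real.exp (-(t - α) ^ 2 / 4) * P k t +
        Real.exp (-(t - (α + T)) ^ 2 / 4) * P k t) := i3.add i4
  rw [e1, ← e2]
  have hρ := Real.exp_pos (-Δ ^ 2 / 4)
  calc _ ≤ ∫ t, ((Icc (α - Δ) (α + T + Δ)).indicator (Z k) t +
      2 * Real.exp (-Δ ^ 2 / 4) * (Real.exp (-(t - α) ^ 2 / 4) * P k t +
        Real.exp (-(t - (α + T)) ^ 2 / 4) * P k t)) :=
        integral_mono i1 (i2.add (i5.const_mul _)) fun t => pt_up (by linarith) hΔ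
    _ = (∫ t, (Icc (α - Δ) (α + T + Δ)).indicator (Z k) t) +
      2 * Real.exp (-Δ ^ 2 / 4) * ((∫ t, Real.exp (-(t - α) ^ 2 / 4) * P k t) +
        ∫ t, Real.exp (-(t - (α + T)) ^ 2 / 4) * P k t) := by
        rw [integral_add i2 (i5.const_mul _), integral_const_mul, integral_add i3 i4]
    _ ≤ _ := by gcongr

/-- the integral from below -/
lemma int_low {k : ℕ} {a α T Δ : ℝ} (hT : 1 ≤ T) (ha : 0 ≤ a) (hΔ : 0 ≤ Δ) (h1 : a ≤ α + Δ)
    (h2 : α + Δ ≤ α + T - Δ) :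
    (1 - 3 * Real.exp (-Δ ^ 2 / 4)) * q a ^ k * (∫ t in (α + Δ)..(α + T - Δ), Z k t) ≤
      ∫ t, v T t * P k (t + α) := by
  have e1 : ∫ t, v T t * P k (t + α) = ∫ t, v T (t - α) * P k t := by
    rw [← integral_sub_right_eq_self (fun t : ℝ => v T t * P k (t + α)) α]
    simp
  have i1 : Integrable (fun t => v T (t - α) * P k t) := by
    have := (vP_int k hT α).comp_sub_right α
    simpa using this
  obtain ⟨i2, e2⟩ := int_ind k (a := α + Δ) (b := α + T - Δ) h2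
  rw [e1, ← e2, ← integral_const_mul]
  refine integral_mono (i2.const_mul _) i1 fun t => ?_
  simp only
  by_cases ht : t ∈ Icc (α + Δ) (α + T - Δ)
  · rw [indicator_of_mem ht, mul_assoc]
    exact pt_low (by linarith) ha (h1.trans ht.1) hΔ ht.1 ht.2
  · rw [indicator_of_notMem ht, mul_zero]
    exact mul_nonneg (v_nonneg (by linarith) _) (P_nonneg k t)

/-- the sum from above -/
lemma sum_up {k : ℕ} {C : ℝ} {p : ℕ}
    (hg : ∀ τ x h : ℝ, 0 < h → h ≤ 1 → Summable (fun n : ℤ => Real.exp (-(x + n * h - τ) ^ 2 / 4) * P k (x + n * h)) ∧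
      h * ∑' n : ℤ, Real.exp (-(x + n * h - τ) ^ 2 / 4) * P k (x + n * h) ≤ C * (1 + |τ|) ^ p)
    {α T Δ : ℝ} (hT : 1 ≤ T) (hΔ : 0 ≤ Δ) (x : ℝ) {h : ℝ} (hh : 0 < h) (hh1 : h ≤ 1) :
    h * (∑' n : ℤ, v T (x - α + n * h) * P k (x - α + n * h + α)) ≤ samp k x h (α - Δ) (α + T + Δ) +
      2 * Real.exp (-Δ ^ 2 / 4) * (C * (1 + |α|) ^ p + C * (1 + |α + T|) ^ p) := by
  obtain ⟨s3, e3⟩ := hg α x h hh hh1
  obtain ⟨s4, e4⟩ := hg (α + T) x h hh hh1
  have s5 : Summable (fun n : ℤ => Real.exp (-(x + n * h - α) ^ 2 / 4) * P k (x + n * h) +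
        Real.exp (-(x + n * h - (α + T)) ^ 2 / 4) * P k (x + n * h)) := s3.add s4
  have s1 := vP_sum k hT α (x - α) hh hh1
  have s2 := samp_sum k x hh (α - Δ) (α + T + Δ)
  have hle : ∀ n : ℤ, v T (x - α + n * h) * P k (x - α + n * h + α) ≤
      (Icc (α - Δ) (α + T + Δ)).indicator (Z k) (x + n * h) +
      2 * Real.exp (-Δ ^ 2 / 4) * (Real.exp (-(x + n * h - α) ^ 2 / 4) * P k (x + n * h) +
        Real.exp (-(x + n * h - (α + T)) ^ 2 / 4) * P k (x + n * h)) := by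
    intro n
    have a1 : x - α + n * h = x + n * h - α := by ring
    rw [a1, sub_add_cancel]
    exact pt_up (by linarith) hΔ
  have hρ := Real.exp_pos (-Δ ^ 2 / 4)
  unfold samp
  calc _ ≤ h * ∑' n : ℤ, ((Icc (α - Δ) (α + T + Δ)).indicator (Z k) (x + n * h) +
      2 * Real.exp (-Δ ^ 2 / 4) * (Real.exp (-(x + n * h - α) ^ 2 / 4) * P k (x + n * h) +
        Real.exp (-(x + n * h - (α + T)) ^ 2 / 4) * P k (x + n * h))) := by
        refine mul_le_mul_of_nonneg_left ?_ hh.le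
        exact s1.tsum_le_tsum hle (s2.add (s5.mul_left _))
    _ = h * (∑' n : ℤ, (Icc (α - Δ) (α + T + Δ)).indicator (Z k) (x + n * h)) +
      2 * Real.exp (-Δ ^ 2 / 4) * (h * (∑' n : ℤ, Real.exp (-(x + n * h - α) ^ 2 / 4) * P k (x + n * h)) +
        h * ∑' n : ℤ, Real.exp (-(x + n * h - (α + T)) ^ 2 / 4) * P k (x + n * h)) := by
        rw [s2.tsum_add (s5.mul_left _), tsum_mul_left, s3.tsum_add s4]
        ring
    _ ≤ _ := by gcongr

/-- the sum from below -/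
lemma sum_low {k : ℕ} {a b α T Δ : ℝ} (hT : 1 ≤ T) (ha : 0 ≤ a) (hΔ : 0 ≤ Δ) (h1 : α + Δ ≤ a)
    (h2 : b ≤ α + T - Δ) (x : ℝ) {h : ℝ} (hh : 0 < h) (hh1 : h ≤ 1) :
    (1 - 3 * Real.exp (-Δ ^ 2 / 4)) * q a ^ k * samp k x h a b ≤
      h * (∑' n : ℤ, v T (x - α + n * h) * P k (x - α + n * h + α)) := by
  have s1 := vP_sum k hT α (x - α) hh hh1
  have s2 := samp_sum k x hh a b
  unfold samp
  rw [mul_left_comm, ← tsum_mul_left]
  refine mul_le_mul_of_nonneg_left ?_ hh.le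
  refine (s2.mul_left _).tsum_le_tsum (fun n => ?_) s1
  have a1 : x - α + n * h = x + n * h - α := by ring
  rw [a1, sub_add_cancel]
  by_cases ht : x + n * h ∈ Icc a b
  · rw [indicator_of_mem ht, mul_assoc]
    exact pt_low (by linarith) ha ht.1 hΔ (h1.trans ht.1) (ht.2.trans h2)
  · rw [indicator_of_notMem ht, mul_zero]
    exact mul_nonneg (v_nonneg (by linarith) _) (P_nonneg k _)

end

end Pool.Agent.J4.H63.SA
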