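import Pool.Agent.J4.H63.SA.S5

set_option autoImplicit false

/-! The sampling theorem. -/

namespace Pool.Agent.J4.H63.SA

open Complex MeasureTheory Filter Topology Set Pool.Agent.TH535.SM Asymptotics

noncomputable section

/-- `exp (-(log X)² / 16)` beats powers -/
lemma tiny (c1 m A : ℝ) : ∃ X0 : ℝ, 2 ≤ X0 ∧ ∀ X : ℝ, X0 ≤ X →
    c1 * Real.exp (-(Real.log X / 2) ^ 2 / 4) * X ^ m ≤ X ^ (-A) := by
  set R : ℝ := max 1 (16 * (|m + A| + |c1|)) with hR
  refine ⟨max 2 (Real.exp R), le_max_left _ _, fun X hX => ?_⟩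
  have hX2 : 2 ≤ X := (le_max_left _ _).trans hX
  have hX0 : 0 < X := by linarith
  have hL : R ≤ Real.log X := by
    rw [Real.le_log_iff_exp_le hX0]
    exact (le_max_right _ _).trans hX
  obtain ⟨L, hLd⟩ : ∃ L, L = Real.log X := ⟨_, rfl⟩
  rw [← hLd] at hL ⊢
  have h1 : 1 ≤ L := (le_max_left _ _).trans hL
  have h2 : 16 * (|m + A| + |c1|) ≤ L := (le_max_right _ _).trans hL
  have hc : c1 ≤ Real.exp (|c1| * L) := by
    have := Real.add_one_le_exp (|c1| * L)
    have h3 := le_abs_self c1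
    have h4 : |c1| * 1 ≤ |c1| * L := mul_le_mul_of_nonneg_left h1 (abs_nonneg _)
    linarith
  rw [Real.rpow_def_of_pos hX0, Real.rpow_def_of_pos hX0, ← hLd]
  calc c1 * Real.exp (-(L / 2) ^ 2 / 4) * Real.exp (L * m) ≤
        Real.exp (|c1| * L) * Real.exp (-(L / 2) ^ 2 / 4) * Real.exp (L * m) := by gcongr
    _ = Real.exp (|c1| * L + -(L / 2) ^ 2 / 4 + L * m) := by rw [Real.exp_add, Real.exp_add]
    _ ≤ _ := by
        refine Real.exp_le_exp.2 ?_
        have h5 := le_abs_self (m + A)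
        have h6 : (m + A) * L ≤ |m + A| * L := mul_le_mul_of_nonneg_right h5 (by linarith)
        have h7 : (|m + A| + |c1|) * L ≤ L / 16 * L := by
          refine mul_le_mul_of_nonneg_right ?_ (by linarith)
          linarith
        nlinarith

lemma int_Z_le {k : ℕ} {C : ℝ} {p : ℕ} (hC : 0 ≤ C) (hZ : ∀ t : ℝ, Z k t ≤ C * (1 + |t|) ^ p) {a b X : ℝ} (ha : 0 ≤ a)
    (hab : a ≤ b) (hb : 1 + b ≤ 4 * X) : ∫ t in a..b, Z k t ≤ C * (4 * X) ^ (p + 1) := by
  have h1 : ∫ t in a..b, Z k t ≤ ∫ t in a..b, C * (4 * X) ^ p := by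
    refine intervalIntegral.integral_mono_on hab ((Z_cont k).intervalIntegrable _ _) intervalIntegrable_const
      fun t ht => (hZ t).trans ?_
    have : 1 + |t| ≤ 4 * X := by
      rw [abs_of_nonneg (ha.trans ht.1)]
      linarith [ht.2]
    have h0 := abs_nonneg t
    gcongr
  rw [intervalIntegral.integral_const, smul_eq_mul] at h1
  have hX : 0 ≤ 4 * X := by linarith
  calc _ ≤ (b - a) * (C * (4 * X) ^ p) := h1
    _ ≤ (4 * X) * (C * (4 * X) ^ p) := by
        refine mul_le_mul_of_nonneg_right (by linarith) (by positivity)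
    _ = _ := by rw [pow_succ]; ring

/-- **The sampling theorem.** -/
theorem sandwich (k : ℕ) {c : ℝ} (hc : 0 < c) (hck : c * k < 2 * Real.pi) {A : ℝ} (hA : 0 ≤ A) :
    ∃ X0 : ℝ, 3 ≤ X0 ∧ ∀ X : ℝ, X0 ≤ X → ∀ h : ℝ, 0 < h → h * Real.log X ≤ c → ∀ a b x : ℝ, Real.log X ≤ a →
      a + 2 * Real.log X ≤ b → b ≤ X →
      (∫ t in (a + Real.log X)..(b - Real.log X), Z k t) - X ^ (-A) ≤ samp k x h a b ∧
      samp k x h a b ≤ (∫ t in (a - Real.log X)..(b + Real.log X), Z k t) + X ^ (-A) := by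
  obtain ⟨Cs, hCs, hs⟩ := sample_smooth k hc hck (A := A + 1) (by linarith)
  obtain ⟨Cg, pg, hCg, hgs, hgi⟩ := gauss_all k
  obtain ⟨CZ, pz, hCZ, hZ⟩ := Z_bd k
  -- the small terms
  set K1 : ℝ := 4 * (Cg * 4 ^ pg) with hK1
  set K2 : ℝ := CZ * 4 ^ (pz + 1) with hK2
  set m : ℕ := pg + (pz + 1) with hm
  obtain ⟨X1, hX1, ht⟩ := tiny (K1 + 2 * (3 + k) * (K2 + K1 + Cs)) m (A + 1)
  obtain ⟨X2, hX2, ht2⟩ := tiny (2 * (3 + k)) 0 0
  refine ⟨max (max X1 X2) (max (max 3 (Real.exp c)) (1 + 2 * Cs)), ?_, fun X hX h hh hhX a b x ha hab hb => ?_⟩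
  · exact le_max_of_le_right (le_max_of_le_left (le_max_left _ _))
  have hXX1 : X1 ≤ X := (le_max_left _ _).trans ((le_max_left _ _).trans hX)
  have hXX2 : X2 ≤ X := (le_max_right _ _).trans ((le_max_left _ _).trans hX)
  have hX3 : 3 ≤ X := (le_max_left _ _).trans ((le_max_left _ _).trans ((le_max_right _ _).trans hX))
  have hXc : Real.exp c ≤ X := (le_max_right _ _).trans ((le_max_left _ _).trans ((le_max_right _ _).trans hX))
  have hXs : 1 + 2 * Cs ≤ X := (le_max_right _ _).trans ((le_max_right _ _).trans hX)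
  have hX0 : 0 < X := by linarith
  have hX1' : (1:ℝ) ≤ X := by linarith
  have hLc : c ≤ Real.log X := by rwa [Real.le_log_iff_exp_le hX0]
  have hL1 : 1 ≤ Real.log X := by
    rw [Real.le_log_iff_exp_le hX0]
    have := Real.exp_one_lt_d9
    linarith
  have hLX : Real.log X ≤ X - 1 := Real.log_le_sub_one_of_pos hX0
  specialize ht X hXX1
  specialize ht2 X hXX2
  obtain ⟨D, hD⟩ : ∃ D, D = Real.log X := ⟨_, rfl⟩
  rw [← hD] at hhX ha hab hLc hL1 hLX ht ht2 ⊢
  have hh1 : h ≤ 1 := by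
    by_contra hcon
    push Not at hcon
    have : 1 * D < h * D := mul_lt_mul_of_pos_right hcon (by linarith)
    linarith
  set Δ : ℝ := D / 2 with hΔ
  have hΔ0 : 0 ≤ Δ := by rw [hΔ]; linarith
  set ρ : ℝ := Real.exp (-Δ ^ 2 / 4) with hρ
  have hρ0 : 0 < ρ := Real.exp_pos _
  have ha0 : 0 ≤ a := by linarith
  -- the factor
  have hk0 : (0:ℝ) ≤ k := Nat.cast_nonneg k
  have hρs : 2 * (3 + k) * ρ ≤ 1 := by
    have := ht2
    rw [Real.rpow_zero, mul_one, neg_zero, Real.rpow_zero] at this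
    exact this
  have hρ1 : ρ ≤ 1 := by
    have h1 : 0 ≤ (k:ℝ) * ρ := by positivity
    have e : 2 * (3 + k) * ρ = 6 * ρ + 2 * (k * ρ) := by ring
    rw [e] at hρs
    linarith
  have hqa : 1 - ρ ≤ q a := by
    unfold q
    have : Real.exp (-(1 / 4 + a ^ 2)) ≤ ρ := by
      rw [hρ]
      refine Real.exp_le_exp.2 ?_
      have h1 : D ^ 2 ≤ a ^ 2 := by gcongr
      rw [hΔ]
      have h2 := sq_nonneg D
      have e : -(D / 2) ^ 2 / 4 = -(D ^ 2 / 16) := by ring
      rw [e]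
      linarith
    linarith
  set θ : ℝ := (1 - 3 * ρ) * q a ^ k with hθ
  have hqk : 1 - k * ρ ≤ q a ^ k := by
    have h1 := one_add_mul_le_pow (a := -ρ) (by linarith) k
    have h2 : (1 + -ρ) ^ k ≤ q a ^ k := pow_le_pow_left₀ (by linarith) (by linarith) k
    linarith
  have hqk1 : q a ^ k ≤ 1 := pow_le_one₀ (q_nonneg a) (q_le_one a)
  have hqk0 : 0 ≤ q a ^ k := pow_nonneg (q_nonneg a) k
  have hθ1 : 1 - (3 + k) * ρ ≤ θ := by
    have h1 : 0 ≤ ρ * (1 - q a ^ k) := mul_nonneg hρ0.le (by linarith)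
    have e : (1 - 3 * ρ) * q a ^ k = q a ^ k - 3 * ρ + 3 * (ρ * (1 - q a ^ k)) := by ring
    rw [hθ, e]
    linarith
  have hθ2 : θ ≤ 1 := by
    have h1 : 0 ≤ ρ * q a ^ k := mul_nonneg hρ0.le hqk0
    have e : (1 - 3 * ρ) * q a ^ k = q a ^ k - 3 * (ρ * q a ^ k) := by ring
    rw [hθ, e]
    linarith
  have hθ3 : 1 / 2 ≤ θ := by linarith
  -- powers of X
  have hXm : ∀ j : ℕ, j ≤ m → X ^ j ≤ X ^ m := fun j hj => pow_le_pow_right₀ hX1' hj
  have hXA : X ^ (-(A + 1)) ≤ 1 := Real.rpow_le_one_of_one_le_of_nonpos hX1' (by linarith)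
  have hXA0 : 0 < X ^ (-(A + 1)) := Real.rpow_pos_of_pos hX0 _
  have hXm1 : 1 ≤ X ^ m := one_le_pow₀ hX1'
  have ht' : (K1 + 2 * (3 + k) * (K2 + K1 + Cs)) * ρ * X ^ m ≤ X ^ (-(A + 1)) := by
    have := ht
    rw [Real.rpow_natCast] at this
    exact this
  have hsum : (1 + 2 * Cs) * X ^ (-(A + 1)) ≤ X ^ (-A) := by
    have e : X ^ (-A) = X * X ^ (-(A + 1)) := by
      have e1 : -A = 1 + -(A + 1) := by ring
      rw [e1, Real.rpow_add hX0, Real.rpow_one]
    rw [e]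
    gcongr
  -- the Gaussian terms
  have hG : ∀ τ : ℝ, |τ| ≤ 4 * X - 1 → Cg * (1 + |τ|) ^ pg ≤ Cg * 4 ^ pg * X ^ m := by
    intro τ hτ
    have h0 := abs_nonneg τ
    calc Cg * (1 + |τ|) ^ pg ≤ Cg * (4 * X) ^ pg := by gcongr; linarith
      _ = Cg * 4 ^ pg * X ^ pg := by rw [mul_pow]; ring
      _ ≤ _ := by
          have := hXm pg (by omega)
          gcongr
  constructor
  · -- lower bound
    have hTα : 1 ≤ b - a - D := by linarith
    have hαe : a + Δ + Δ = a + D := by rw [hΔ]; ring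
    have hβe : a + Δ + (b - a - D) - Δ = b - D := by rw [hΔ]; ring
    have hβe2 : a + Δ + (b - a - D) + Δ = b := by rw [hΔ]; ring
    have hαe2 : a + Δ - Δ = a := by ring
    have habs1 : |a + Δ| = a + Δ := abs_of_nonneg (by linarith)
    have habs2 : |a + Δ + (b - a - D)| = b - Δ := by
      have e : a + Δ + (b - a - D) = b - Δ := by rw [hΔ]; ring
      rw [e, abs_of_nonneg (by rw [hΔ]; linarith)]
    have h1 := int_low (k := k) (a := a) (α := a + Δ) (T := b - a - D) (Δ := Δ) hTα ha0 hΔ0 (by linarith)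
      (by rw [hαe, hβe]; linarith)
    rw [hαe, hβe, ← hρ, ← hθ] at h1
    have h2 := sum_up hgs (α := a + Δ) (T := b - a - D) (Δ := Δ) hTα hΔ0 x hh hh1
    rw [hαe2, hβe2, ← hρ] at h2
    have h3 := hs X (by linarith) h hh (by rw [← hD]; exact hhX) (b - a - D) (a + Δ) hTα (by
      rw [habs1]; rw [hΔ]; linarith) (x - (a + Δ))
    have h4 := (abs_le.1 h3).1
    have h5 := hG (a + Δ) (by rw [habs1, hΔ]; linarith)
    have h6 := hG (a + Δ + (b - a - D)) (by rw [habs2, hΔ]; linarith)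
    have h7 : 2 * ρ * (Cg * (1 + |a + Δ|) ^ pg + Cg * (1 + |a + Δ + (b - a - D)|) ^ pg) ≤ K1 * ρ * X ^ m := by
      calc _ ≤ 2 * ρ * (Cg * 4 ^ pg * X ^ m + Cg * 4 ^ pg * X ^ m) := by gcongr
        _ = _ := by rw [hK1]; ring
    set J : ℝ := ∫ t in (a + D)..(b - D), Z k t with hJ
    have hJ0 : 0 ≤ J := intervalIntegral.integral_nonneg (by linarith) fun t _ => Z_nonneg k t
    have hJ1 : J ≤ K2 * X ^ m := by
      have := int_Z_le (by linarith) hZ (a := a + D) (b := b - D) (X := X) (by linarith) (by linarith) (by linarith)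
      calc J ≤ CZ * (4 * X) ^ (pz + 1) := this
        _ = K2 * X ^ (pz + 1) := by rw [hK2, mul_pow]; ring
        _ ≤ _ := by
            have := hXm (pz + 1) (by omega)
            have hK20 : 0 ≤ K2 := by rw [hK2]; positivity
            gcongr
    have h8 : J - (3 + k) * ρ * (K2 * X ^ m) ≤ θ * J := by
      have h9 : (1 - (3 + k) * ρ) * J ≤ θ * J := mul_le_mul_of_nonneg_right hθ1 hJ0
      have h10 : (3 + k) * ρ * J ≤ (3 + k) * ρ * (K2 * X ^ m) := by gcongr
      linarith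
    have hK10 : 0 ≤ K1 := by rw [hK1]; positivity
    have hK20 : 0 ≤ K2 := by rw [hK2]; positivity
    have h11 : K1 * ρ * X ^ m + (3 + k) * ρ * (K2 * X ^ m) ≤ X ^ (-(A + 1)) := by
      refine le_trans ?_ ht'
      have e1 : K1 * ρ * X ^ m + (3 + k) * ρ * (K2 * X ^ m) = (K1 + (3 + k) * K2) * (ρ * X ^ m) := by ring
      have e2 : (K1 + 2 * (3 + k) * (K2 + K1 + Cs)) * ρ * X ^ m =
        (K1 + 2 * (3 + k) * (K2 + K1 + Cs)) * (ρ * X ^ m) := by ring
      rw [e1, e2]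
      refine mul_le_mul_of_nonneg_right ?_ (by positivity)
      have : 0 ≤ (3 + (k:ℝ)) * (K2 + 2 * K1 + 2 * Cs) := by positivity
      have e3 : K1 + 2 * (3 + k) * (K2 + K1 + Cs) = K1 + (3 + k) * K2 + (3 + (k:ℝ)) * (K2 + 2 * K1 + 2 * Cs) := by ring
      rw [e3]
      linarith
    have h12 : 0 ≤ Cs * X ^ (-(A + 1)) := by positivity
    linarith
  · -- upper bound
    have hTα : 1 ≤ b - a + D := by linarith
    have hαe : a - Δ - Δ = a - D := by rw [hΔ]; ring
    have hβe : a - Δ + (b - a + D) + Δ = b + D := by rw [hΔ]; ring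
    have habs1 : |a - Δ| = a - Δ := abs_of_nonneg (by rw [hΔ]; linarith)
    have habs2 : |a - Δ + (b - a + D)| = b + Δ := by
      have e : a - Δ + (b - a + D) = b + Δ := by rw [hΔ]; ring
      rw [e, abs_of_nonneg (by linarith)]
    have h1 := sum_low (k := k) (a := a) (b := b) (α := a - Δ) (T := b - a + D) (Δ := Δ) hTα ha0 hΔ0 (by linarith)
      (by rw [hΔ]; linarith) x hh hh1
    rw [← hρ, ← hθ] at h1
    have h2 := int_up hgi (α := a - Δ) (T := b - a + D) (Δ := Δ) hTα hΔ0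
    rw [hαe, hβe, ← hρ] at h2
    have h3 := hs X (by linarith) h hh (by rw [← hD]; exact hhX) (b - a + D) (a - Δ) hTα (by
      rw [habs1]; rw [hΔ]; linarith) (x - (a - Δ))
    have h4 := (abs_le.1 h3).2
    have h5 := hG (a - Δ) (by rw [habs1, hΔ]; linarith)
    have h6 := hG (a - Δ + (b - a + D)) (by rw [habs2, hΔ]; linarith)
    have h7 : 2 * ρ * (Cg * (1 + |a - Δ|) ^ pg + Cg * (1 + |a - Δ + (b - a + D)|) ^ pg) ≤ K1 * ρ * X ^ m := by
      calc _ ≤ 2 * ρ * (Cg * 4 ^ pg * X ^ m + Cg * 4 ^ pg * X ^ m) := by gcongr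
        _ = _ := by rw [hK1]; ring
    set J : ℝ := ∫ t in (a - D)..(b + D), Z k t with hJ
    have hJ0 : 0 ≤ J := intervalIntegral.integral_nonneg (by linarith) fun t _ => Z_nonneg k t
    have hJ1 : J ≤ K2 * X ^ m := by
      have := int_Z_le (by linarith) hZ (a := a - D) (b := b + D) (X := X) (by linarith) (by linarith) (by linarith)
      calc J ≤ CZ * (4 * X) ^ (pz + 1) := this
        _ = K2 * X ^ (pz + 1) := by rw [hK2, mul_pow]; ring
        _ ≤ _ := by
            have := hXm (pz + 1) (by omega)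
            have hK20 : 0 ≤ K2 := by rw [hK2]; positivity
            gcongr
    have hK10 : 0 ≤ K1 := by rw [hK1]; positivity
    have hK20 : 0 ≤ K2 := by rw [hK2]; positivity
    set R : ℝ := J + K1 * ρ * X ^ m + Cs * X ^ (-(A + 1)) with hR
    have hN : θ * samp k x h a b ≤ R := by linarith
    have hR0 : 0 ≤ R := by rw [hR]; positivity
    have hR1 : R ≤ (K2 + K1 + Cs) * X ^ m := by
      rw [hR]
      have a1 : K1 * ρ * X ^ m ≤ K1 * 1 * X ^ m := by gcongr
      have a2 : Cs * X ^ (-(A + 1)) ≤ Cs * X ^ m := by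
        have : X ^ (-(A + 1)) ≤ X ^ m := hXA.trans hXm1
        gcongr
      linarith
    have h8 : samp k x h a b ≤ R * (1 + 2 * (1 - θ)) := by
      have e1 : 1 ≤ θ * (1 + 2 * (1 - θ)) := by
        have h1 : 0 ≤ (1 - θ) * (2 * θ - 1) := mul_nonneg (by linarith) (by linarith)
        have e2 : θ * (1 + 2 * (1 - θ)) = 1 + (1 - θ) * (2 * θ - 1) := by ring
        rw [e2]
        linarith
      have hpos : 0 < θ := by linarith
      by_contra hcon
      push Not at hcon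
      have h9 : θ * (R * (1 + 2 * (1 - θ))) < θ * samp k x h a b := mul_lt_mul_of_pos_left hcon hpos
      have h10 : R * 1 ≤ R * (θ * (1 + 2 * (1 - θ))) := mul_le_mul_of_nonneg_left e1 hR0
      have e3 : θ * (R * (1 + 2 * (1 - θ))) = R * (θ * (1 + 2 * (1 - θ))) := by ring
      rw [e3] at h9
      linarith
    have h9 : R * (2 * (1 - θ)) ≤ 2 * (3 + k) * ρ * ((K2 + K1 + Cs) * X ^ m) := by
      calc R * (2 * (1 - θ)) ≤ R * (2 * ((3 + k) * ρ)) := by gcongr; linarith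
        _ ≤ ((K2 + K1 + Cs) * X ^ m) * (2 * ((3 + k) * ρ)) := by gcongr
        _ = _ := by ring
    have h10 : K1 * ρ * X ^ m + 2 * (3 + k) * ρ * ((K2 + K1 + Cs) * X ^ m) ≤ X ^ (-(A + 1)) := by
      refine le_trans (le_of_eq ?_) ht'
      ring
    have h12 : 0 ≤ Cs * X ^ (-(A + 1)) := by positivity
    linarith

end

end Pool.Agent.J4.H63.SA
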