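import Pool.Agent.J4.H63.SA.S6

set_option autoImplicit false

/-! The moment conjecture in sampled form. -/

namespace Pool.Agent.J4.H63.SA

open Complex MeasureTheory Filter Topology Set Pool.Agent.TH535.SM Asymptotics

noncomputable section

/-- `T (log T)^p` -/
def w (p T : ℝ) : ℝ := T * Real.log T ^ p

lemma g_tend (σ : ℝ) : Tendsto (fun T : ℝ => T + σ * Real.log T) atTop atTop := by
  have h1 : (fun T : ℝ => σ * Real.log T) =o[atTop] (fun T : ℝ => T) :=
    Real.isLittleO_log_id_atTop.const_mul_left σ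
  have h2 : (fun T : ℝ => T + σ * Real.log T) ~[atTop] (fun T : ℝ => T) := by
    have : ((fun T : ℝ => T + σ * Real.log T) - fun T : ℝ => T) = fun T => σ * Real.log T := by
      funext T; simp
    rw [IsEquivalent, this]
    exact h1
  exact h2.symm.tendsto_atTop tendsto_id

lemma g_ratio (σ : ℝ) : Tendsto (fun T : ℝ => (T + σ * Real.log T) / T) atTop (𝓝 1) := by
  have h1 : Tendsto (fun T : ℝ => Real.log T / T) atTop (𝓝 0) :=
    Real.isLittleO_log_id_atTop.tendsto_div_nhds_zero
  have h2 := (h1.const_mul σ).const_add 1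
  rw [mul_zero, add_zero] at h2
  refine h2.congr' ?_
  filter_upwards [eventually_gt_atTop 0] with T hT
  field_simp

lemma log_ratio (σ : ℝ) : Tendsto (fun T : ℝ => Real.log (T + σ * Real.log T) / Real.log T) atTop (𝓝 1) := by
  have h1 : Tendsto (fun T : ℝ => Real.log ((T + σ * Real.log T) / T)) atTop (𝓝 0) := by
    have := (Real.continuousAt_log (by norm_num : (1:ℝ) ≠ 0)).tendsto.comp (g_ratio σ)
    rwa [Real.log_one] at this
  have h2 : Tendsto (fun T : ℝ => (Real.log T)⁻¹) atTop (𝓝 0) := tendsto_inv_atTop_zero.comp Real.tendsto_log_atTop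
  have h3 := (h1.mul h2).const_add 1
  rw [mul_zero, add_zero] at h3
  refine h3.congr' ?_
  filter_upwards [eventually_gt_atTop 1, (g_tend σ).eventually_gt_atTop 0] with T hT hg
  have hL : Real.log T ≠ 0 := (Real.log_pos hT).ne'
  rw [Real.log_div hg.ne' (by linarith)]
  field_simp
  ring

lemma w_ratio (p σ : ℝ) : Tendsto (fun T : ℝ => w p (T + σ * Real.log T) / w p T) atTop (𝓝 1) := by
  have h1 := (log_ratio σ).rpow_const (p := p) (Or.inl one_ne_zero)
  rw [Real.one_rpow] at h1
  have h2 := (g_ratio σ).mul h1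
  rw [one_mul] at h2
  refine h2.congr' ?_
  filter_upwards [eventually_gt_atTop 1, (g_tend σ).eventually_gt_atTop 1] with T hT hg
  have hL := Real.log_pos hT
  have hL' := Real.log_pos hg
  unfold w
  rw [Real.div_rpow hL'.le hL.le, mul_div_mul_comm]

lemma w_pos {p T : ℝ} (hT : 1 < T) : 0 < w p T := by
  have := Real.log_pos hT
  unfold w; positivity

lemma err_tend (p C : ℝ) (m : ℕ) : Tendsto (fun T : ℝ => C * (Real.log T) ^ m / w p T) atTop (𝓝 0) := by
  have h1 : Tendsto (fun T : ℝ => Real.log T ^ ((m:ℝ) - p) / T) atTop (𝓝 0) := by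
    have := (isLittleO_log_rpow_rpow_atTop ((m:ℝ) - p) one_pos).tendsto_div_nhds_zero
    simpa using this
  have h2 := h1.const_mul C
  rw [mul_zero] at h2
  refine h2.congr' ?_
  filter_upwards [eventually_gt_atTop 1] with T hT
  have hL := Real.log_pos hT
  unfold w
  rw [Real.rpow_sub hL, Real.rpow_natCast]
  have : Real.log T ^ p ≠ 0 := (Real.rpow_pos_of_pos hL p).ne'
  field_simp

/-- transfer of an asymptotic formula -/
lemma transfer {a b e1 e2 : ℝ → ℝ} {p κ : ℝ}
    (h : ∀ᶠ T in atTop, a (T + (-2) * Real.log T) - e1 T ≤ b T ∧ b T ≤ a (T + 2 * Real.log T) + e2 T)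
    (he1 : Tendsto (fun T => e1 T / w p T) atTop (𝓝 0)) (he2 : Tendsto (fun T => e2 T / w p T) atTop (𝓝 0))
    (ha : Tendsto (fun T => a T / w p T) atTop (𝓝 κ)) : Tendsto (fun T => b T / w p T) atTop (𝓝 κ) := by
  have key : ∀ σ : ℝ, Tendsto (fun T => a (T + σ * Real.log T) / w p T) atTop (𝓝 κ) := by
    intro σ
    have h1 := (ha.comp (g_tend σ)).mul (w_ratio p σ)
    rw [mul_one] at h1
    refine h1.congr' ?_
    filter_upwards [(g_tend σ).eventually_gt_atTop 1] with T hg
    have := (w_pos (p := p) hg).ne'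
    simp only [Function.comp]
    field_simp
  have h1 := (key (-2)).sub he1
  have h2 := (key 2).add he2
  rw [sub_zero] at h1
  rw [add_zero] at h2
  refine tendsto_of_tendsto_of_tendsto_of_le_of_le' h1 h2 ?_ ?_
  · filter_upwards [h, eventually_gt_atTop 1] with T hT h1
    rw [← sub_div]
    exact div_le_div_of_nonneg_right hT.1 (w_pos h1).le
  · filter_upwards [h, eventually_gt_atTop 1] with T hT h1
    rw [← add_div]
    exact div_le_div_of_nonneg_right hT.2 (w_pos h1).le

/-- `∫_0^T |ζ|^(2k)` -/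
def N (k : ℕ) (T : ℝ) : ℝ := ∫ t in (0:ℝ)..T, Z k t

lemma N_mono (k : ℕ) {S T : ℝ} (h : S ≤ T) : N k S ≤ N k T := by
  unfold N
  have hi : ∀ a b : ℝ, IntervalIntegrable (Z k) volume a b := fun a b => (Z_cont k).intervalIntegrable _ _
  rw [← intervalIntegral.integral_add_adjacent_intervals (hi 0 S) (hi S T)]
  have := intervalIntegral.integral_nonneg (μ := volume) h fun t _ => Z_nonneg k t
  linarith

lemma samp_mono (k : ℕ) (x : ℝ) {h : ℝ} (hh : 0 < h) {a a' b : ℝ} (ha : a' ≤ a) :
    samp k x h a b ≤ samp k x h a' b := by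
  unfold samp
  refine mul_le_mul_of_nonneg_left ((samp_sum k x hh a b).tsum_le_tsum (fun n => ?_) (samp_sum k x hh a' b)) hh.le
  exact indicator_le_indicator_of_subset (Icc_subset_Icc_left ha) (fun t => Z_nonneg k t) _

lemma samp_add (k : ℕ) (x : ℝ) {h : ℝ} (hh : 0 < h) {a b c : ℝ} :
    samp k x h a c ≤ samp k x h a b + samp k x h b c := by
  unfold samp
  have s1 := samp_sum k x hh a b
  have s2 := samp_sum k x hh b c
  rw [← mul_add, ← s1.tsum_add s2]
  refine mul_le_mul_of_nonneg_left ((samp_sum k x hh a c).tsum_le_tsum (fun n => ?_) (s1.add s2)) hh.le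
  have n1 := indicator_nonneg (s := Icc a b) (fun t _ => Z_nonneg k t) (x + n * h)
  have n2 := indicator_nonneg (s := Icc b c) (fun t _ => Z_nonneg k t) (x + n * h)
  by_cases ht : x + n * h ∈ Icc a c
  · rw [indicator_of_mem ht]
    rcases le_total (x + n * h) b with hb | hb
    · have hm : x + n * h ∈ Icc a b := ⟨ht.1, hb⟩
      have e : (Icc a b).indicator (Z k) (x + n * h) = Z k (x + n * h) := indicator_of_mem hm _
      rw [e]
      linarith
    · have hm : x + n * h ∈ Icc b c := ⟨hb, ht.2⟩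
      have e : (Icc b c).indicator (Z k) (x + n * h) = Z k (x + n * h) := indicator_of_mem hm _
      rw [e]
      linarith
  · rw [indicator_of_notMem ht]
    linarith

lemma samp_small (k : ℕ) : ∃ (C : ℝ) (m : ℕ), 1 ≤ C ∧ ∀ x h : ℝ, 0 < h → h ≤ 1 → ∀ D : ℝ, 1 ≤ D →
    samp k x h 0 D ≤ C * D ^ m ∧ N k (2 * D) ≤ C * D ^ m := by
  obtain ⟨C, p, hC, hZ⟩ := Z_bd k
  have hpi := Real.pi_gt_three
  refine ⟨(C * 3 ^ p) * (2 * (3 * Real.pi)), p + 2, ?_, fun x h hh hh1 D hD => ⟨?_, ?_⟩⟩
  · have : (1:ℝ) ≤ 3 ^ p := one_le_pow₀ (by norm_num)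
    have := one_le_mul_of_one_le_of_one_le hC this
    nlinarith
  · obtain ⟨s1, s2⟩ := inv_sum x hh hh1
    have hle : ∀ n : ℤ, (Icc 0 D).indicator (Z k) (x + n * h) ≤ (C * 3 ^ p) * (2 * D ^ (p + 2)) * (1 + (x + n * h) ^ 2)⁻¹ := by
      intro n
      obtain ⟨t, ht⟩ : ∃ t, t = x + n * h := ⟨_, rfl⟩
      rw [← ht]
      by_cases hm : t ∈ Icc 0 D
      · rw [indicator_of_mem hm, ← div_eq_mul_inv, le_div_iff₀ (by positivity)]
        have h1 : Z k t ≤ C * (3 * D) ^ p := by
          refine (hZ t).trans ?_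
          have h0 := hm.1
          rw [abs_of_nonneg hm.1]
          have : 1 + t ≤ 3 * D := by linarith [hm.2]
          gcongr
        have h2 : 1 + t ^ 2 ≤ 2 * D ^ 2 := by
          have h3 : t ^ 2 ≤ D ^ 2 := by
            have := hm.1
            have := hm.2
            gcongr
          nlinarith
        calc Z k t * (1 + t ^ 2) ≤ (C * (3 * D) ^ p) * (2 * D ^ 2) := mul_le_mul h1 h2 (by positivity) (by positivity)
          _ = _ := by rw [mul_pow, pow_add]; ring
      · rw [indicator_of_notMem hm]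
        positivity
    unfold samp
    calc _ ≤ h * ∑' n : ℤ, (C * 3 ^ p) * (2 * D ^ (p + 2)) * (1 + (x + n * h) ^ 2)⁻¹ := by
          refine mul_le_mul_of_nonneg_left ?_ hh.le
          exact (samp_sum k x hh 0 D).tsum_le_tsum hle (s1.mul_left _)
      _ = (C * 3 ^ p) * (2 * D ^ (p + 2)) * (h * ∑' n : ℤ, (1 + (x + n * h) ^ 2)⁻¹) := by
          rw [tsum_mul_left]; ring
      _ ≤ (C * 3 ^ p) * (2 * D ^ (p + 2)) * (3 * Real.pi) := by gcongr
      _ = _ := by ring
  · unfold N
    have h1 : ∫ t in (0:ℝ)..(2 * D), Z k t ≤ ∫ t in (0:ℝ)..(2 * D), C * (3 * D) ^ p := by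
      refine intervalIntegral.integral_mono_on (by linarith) ((Z_cont k).intervalIntegrable _ _)
        intervalIntegrable_const fun t ht => (hZ t).trans ?_
      have h0 := ht.1
      rw [abs_of_nonneg ht.1]
      have : 1 + t ≤ 3 * D := by linarith [ht.2]
      gcongr
    rw [intervalIntegral.integral_const, smul_eq_mul, sub_zero] at h1
    have h2 : (1:ℝ) ≤ D := hD
    have h3 : D ^ (p + 1) ≤ D ^ (p + 2) := pow_le_pow_right₀ hD (by omega)
    have hCp : 0 ≤ C * 3 ^ p := by positivity
    calc _ ≤ 2 * D * (C * (3 * D) ^ p) := h1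
      _ = (C * 3 ^ p) * (2 * D ^ (p + 1)) := by rw [mul_pow, pow_succ]; ring
      _ ≤ (C * 3 ^ p) * (2 * (3 * Real.pi) * D ^ (p + 2)) := by
          have : 2 * D ^ (p + 1) ≤ 2 * (3 * Real.pi) * D ^ (p + 2) := by
            have h4 : (0:ℝ) ≤ D ^ (p + 2) := by positivity
            nlinarith
          gcongr
      _ = _ := by ring

/-- the two-sided comparison with the moment over `[0, T]` -/
lemma compare (k : ℕ) {c : ℝ} (hc : 0 < c) (hck : c * k < 2 * Real.pi) : ∃ (C : ℝ) (m : ℕ), ∀ x h : ℝ → ℝ,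
    (∀ᶠ T in atTop, 0 < h T ∧ h T * Real.log T ≤ c) →
    ∀ᶠ T in atTop, N k (T - Real.log T) - C * Real.log T ^ m ≤ samp k (x T) (h T) 0 T ∧
      samp k (x T) (h T) 0 T ≤ N k (T + Real.log T) + C * Real.log T ^ m := by
  obtain ⟨X0, hX0, hs⟩ := sandwich k hc hck (A := 0) le_rfl
  obtain ⟨C, m, hC, hsm⟩ := samp_small k
  refine ⟨C + 1, m, fun x h hh => ?_⟩
  filter_upwards [hh, eventually_ge_atTop X0, eventually_ge_atTop (Real.exp (c + 1)),
    Real.isLittleO_log_id_atTop.bound (by norm_num : (0:ℝ) < 1 / 4)] with T h1 h2 h3 h4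
  have hT3 : 3 ≤ T := hX0.trans h2
  have hT0 : 0 < T := by linarith
  have hL : c + 1 ≤ Real.log T := by rwa [Real.le_log_iff_exp_le hT0]
  have hLT : 4 * Real.log T ≤ T := by
    simp only [id, Real.norm_eq_abs, abs_of_pos hT0] at h4
    have := le_abs_self (Real.log T)
    linarith
  obtain ⟨D, hD⟩ : ∃ D, D = Real.log T := ⟨_, rfl⟩
  have hs1 := hs T h2 (h T) h1.1 h1.2 (Real.log T) T (x T) le_rfl (by linarith) le_rfl
  rw [← hD] at hs1 h1 hL hLT ⊢
  have hh1 : h T ≤ 1 := by
    by_contra hcon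
    push Not at hcon
    have : 1 * D < h T * D := mul_lt_mul_of_pos_right hcon (by linarith)
    linarith
  obtain ⟨b1, b2⟩ := hsm (x T) (h T) h1.1 hh1 D (by linarith)
  have hDm : 1 ≤ D ^ m := one_le_pow₀ (by linarith)
  have e0 : T ^ (-(0:ℝ)) = 1 := by rw [neg_zero, Real.rpow_zero]
  rw [e0] at hs1
  obtain ⟨l1, l2⟩ := hs1
  have hi : ∀ a b : ℝ, IntervalIntegrable (Z k) volume a b := fun a b => (Z_cont k).intervalIntegrable _ _
  constructor
  · have m1 := samp_mono k (x T) h1.1 (a := D) (a' := 0) (b := T) (by linarith)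
    have e1 : N k (2 * D) + ∫ t in (D + D)..(T - D), Z k t = N k (T - D) := by
      unfold N
      rw [← two_mul]
      exact intervalIntegral.integral_add_adjacent_intervals (hi _ _) (hi _ _)
    rw [← e1]
    nlinarith
  · have m1 := samp_add k (x T) h1.1 (a := 0) (b := D) (c := T)
    have e1 : ∫ t in (D - D)..(T + D), Z k t = N k (T + D) := by
      unfold N
      rw [sub_self]
    rw [← e1]
    nlinarith

/-- **The moment asymptotics is equivalent to its sampled form.** -/
theorem equiv (k : ℕ) {c : ℝ} (hc : 0 < c) (hck : c * k < 2 * Real.pi) (x h : ℝ → ℝ)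
    (hh : ∀ᶠ T in atTop, 0 < h T ∧ h T * Real.log T ≤ c) (p κ : ℝ) :
    Tendsto (fun T => N k T / w p T) atTop (𝓝 κ) ↔
      Tendsto (fun T => samp k (x T) (h T) 0 T / w p T) atTop (𝓝 κ) := by
  obtain ⟨C, m, hcmp⟩ := compare k hc hck
  have h1 := hcmp x h hh
  have he := err_tend p C m
  constructor
  · intro ha
    refine transfer ?_ he he ha
    filter_upwards [h1, eventually_gt_atTop 1] with T a1 a2
    have hL := Real.log_pos a2
    have b1 := N_mono k (S := T + (-2) * Real.log T) (T := T - Real.log T) (by linarith)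
    have b2 := N_mono k (S := T + Real.log T) (T := T + 2 * Real.log T) (by linarith)
    constructor
    · linarith [a1.1]
    · linarith [a1.2]
  · intro ha
    have hes : ∀ σ : ℝ, Tendsto (fun T => C * Real.log (T + σ * Real.log T) ^ m / w p T) atTop (𝓝 0) := by
      intro σ
      have h2 := (he.comp (g_tend σ)).mul (w_ratio p σ)
      rw [zero_mul] at h2
      refine h2.congr' ?_
      filter_upwards [(g_tend σ).eventually_gt_atTop 1] with T hg
      have := (w_pos (p := p) hg).ne'
      simp only [Function.comp]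
      field_simp
    refine transfer (a := fun T => samp k (x T) (h T) 0 T) (e1 := fun T => C * Real.log (T + (-2) * Real.log T) ^ m)
      (e2 := fun T => C * Real.log (T + 2 * Real.log T) ^ m) ?_ (hes _) (hes _) ha
    have g1 := (g_tend (-2)).eventually h1
    have g2 := (g_tend 2).eventually h1
    have hlog := Real.isLittleO_log_id_atTop.bound (by norm_num : (0:ℝ) < 1 / 4)
    filter_upwards [g1, g2, hlog, eventually_gt_atTop 3, (g_tend (-2)).eventually_gt_atTop 1] with T a1 a2 a3 a4 a5
    have hT0 : 0 < T := by linarith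
    have hL := Real.log_pos (by linarith : (1:ℝ) < T)
    have hLT : 4 * Real.log T ≤ T := by
      simp only [id, Real.norm_eq_abs, abs_of_pos hT0] at a3
      have := le_abs_self (Real.log T)
      linarith
    constructor
    · have b1 : T + (-2) * Real.log T + Real.log (T + (-2) * Real.log T) ≤ T := by
        have : Real.log (T + (-2) * Real.log T) ≤ Real.log T :=
          Real.log_le_log (by linarith) (by linarith)
        linarith
      have b2 := N_mono k b1
      linarith [a1.2]
    · have b1 : T ≤ T + 2 * Real.log T - Real.log (T + 2 * Real.log T) := by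
        have h3 : Real.log (T + 2 * Real.log T) ≤ Real.log (T * T) :=
          Real.log_le_log (by linarith) (by nlinarith)
        rw [Real.log_mul hT0.ne' hT0.ne'] at h3
        linarith
      have b2 := N_mono k b1
      linarith [a2.1]

end

end Pool.Agent.J4.H63.SA
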